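import Mathlib

/-! The finite aperiodic monoids of rank-`r` types of words over two letters. -/

set_option autoImplicit false

namespace Pool.Agent.H270Z.Ord

def E : ℕ → List Bool → List Bool → Prop
  | 0, _, _ => True
  | r + 1, w, w' =>
    (∀ u c v, w = u ++ c :: v → ∃ u' v', w' = u' ++ c :: v' ∧ E r u u' ∧ E r v v') ∧
    (∀ u' c v', w' = u' ++ c :: v' → ∃ u v, w = u ++ c :: v ∧ E r u u' ∧ E r v v')

theorem E_refl : ∀ r w, E r w w
  | 0, _ => trivial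
  | r + 1, _ => ⟨fun u _ v h => ⟨u, v, h, E_refl r u, E_refl r v⟩,
      fun u _ v h => ⟨u, v, h, E_refl r u, E_refl r v⟩⟩

theorem E_symm : ∀ {r w w'}, E r w w' → E r w' w
  | 0, _, _, _ => trivial
  | _ + 1, _, _, h => ⟨fun u c v e => by
        obtain ⟨a, b, h1, h2, h3⟩ := h.2 u c v e
        exact ⟨a, b, h1, E_symm h2, E_symm h3⟩,
      fun u c v e => by
        obtain ⟨a, b, h1, h2, h3⟩ := h.1 u c v e
        exact ⟨a, b, h1, E_symm h2, E_symm h3⟩⟩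

theorem E_trans : ∀ {r w w' w''}, E r w w' → E r w' w'' → E r w w''
  | 0, _, _, _, _, _ => trivial
  | _ + 1, _, _, _, h, h' => ⟨fun u c v e => by
        obtain ⟨a, b, h1, h2, h3⟩ := h.1 u c v e
        obtain ⟨a', b', k1, k2, k3⟩ := h'.1 a c b h1
        exact ⟨a', b', k1, E_trans h2 k2, E_trans h3 k3⟩,
      fun u c v e => by
        obtain ⟨a, b, h1, h2, h3⟩ := h'.2 u c v e
        obtain ⟨a', b', k1, k2, k3⟩ := h.2 a c b h1
        exact ⟨a', b', k1, E_trans k2 h2, E_trans k3 h3⟩⟩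

theorem E_down : ∀ {r w w'}, E (r + 1) w w' → E r w w'
  | 0, _, _, _ => trivial
  | _ + 1, _, _, h => ⟨fun u c v e => by
        obtain ⟨a, b, h1, h2, h3⟩ := h.1 u c v e
        exact ⟨a, b, h1, E_down h2, E_down h3⟩,
      fun u c v e => by
        obtain ⟨a, b, h1, h2, h3⟩ := h.2 u c v e
        exact ⟨a, b, h1, E_down h2, E_down h3⟩⟩

theorem split_append {w x u v : List Bool} {c : Bool} (h : w ++ x = u ++ c :: v) :
    (∃ v', w = u ++ c :: v' ∧ v = v' ++ x) ∨ ∃ u', x = u' ++ c :: v ∧ u = w ++ u' := by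
  rcases List.append_eq_append_iff.1 h with ⟨a, h1, h2⟩ | ⟨a, h1, h2⟩
  · exact Or.inr ⟨a, h2, h1⟩
  · cases a with
    | nil => exact Or.inr ⟨[], by simpa using h2.symm, by simpa using h1.symm⟩
    | cons d a =>
      simp only [List.cons_append, List.cons.injEq] at h2
      exact Or.inl ⟨a, h2.1 ▸ h1, h2.2⟩

theorem E_append : ∀ {r w w' x x'}, E r w w' → E r x x' → E r (w ++ x) (w' ++ x')
  | 0, _, _, _, _, _, _ => trivial
  | _ + 1, _, _, _, _, h, h' => ⟨fun u c v e => by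
        rcases split_append e with ⟨v', e1, rfl⟩ | ⟨u', e1, rfl⟩
        · obtain ⟨a, b, rfl, h2, h3⟩ := h.1 _ _ _ e1
          exact ⟨a, b ++ _, by simp, h2, E_append h3 (E_down h')⟩
        · obtain ⟨a, b, rfl, h2, h3⟩ := h'.1 _ _ _ e1
          exact ⟨_ ++ a, b, by simp, E_append (E_down h) h2, h3⟩,
      fun u c v e => by
        rcases split_append e with ⟨v', e1, rfl⟩ | ⟨u', e1, rfl⟩
        · obtain ⟨a, b, rfl, h2, h3⟩ := h.2 _ _ _ e1
          exact ⟨a, b ++ _, by simp, h2, E_append h3 (E_down h')⟩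
        · obtain ⟨a, b, rfl, h2, h3⟩ := h'.2 _ _ _ e1
          exact ⟨_ ++ a, b, by simp, E_append (E_down h) h2, h3⟩⟩

def st (r : ℕ) : Setoid (List Bool) := ⟨E r, ⟨E_refl r, E_symm, E_trans⟩⟩

def M (r : ℕ) : Type := Quotient (st r)

def mk (r : ℕ) (w : List Bool) : M r := Quotient.mk (st r) w

theorem mk_surj {r : ℕ} (m : M r) : ∃ w, mk r w = m := Quotient.exists_rep m

theorem mk_eq {r : ℕ} {w w' : List Bool} : mk r w = mk r w' ↔ E r w w' := Quotient.eq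

instance (r : ℕ) : Monoid (M r) where
  mul := Quotient.map₂ (· ++ ·) fun _ _ h _ _ h' => E_append h h'
  one := mk r []
  mul_assoc a b c := Quotient.inductionOn₃ a b c fun a b c =>
    congrArg (mk r) (List.append_assoc a b c)
  one_mul a := Quotient.inductionOn a fun _ => rfl
  mul_one a := Quotient.inductionOn a fun a => congrArg (mk r) (List.append_nil a)

theorem mk_append (r : ℕ) (u v : List Bool) : mk r (u ++ v) = mk r u * mk r v := rfl

theorem mk_nil (r : ℕ) : mk r [] = 1 := rfl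

/-- The class of a one-letter word. -/
def ltr (r : ℕ) (c : Bool) : M r := mk r [c]

theorem mk_split (r : ℕ) (u v : List Bool) (c : Bool) :
    mk r (u ++ c :: v) = mk r u * ltr r c * mk r v := by
  rw [ltr, ← mk_append, ← mk_append]; simp

def pr {r : ℕ} : M (r + 1) →* M r where
  toFun := Quotient.map id fun _ _ h => E_down h
  map_one' := rfl
  map_mul' a b := Quotient.inductionOn₂ a b fun _ _ => rfl

theorem pr_mk (r : ℕ) (w : List Bool) : pr (mk (r + 1) w) = mk r w := rfl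

@[simp] theorem pr_ltr (r : ℕ) (c : Bool) : pr (ltr (r + 1) c) = ltr r c := rfl

/-- The splittings of a type. -/
def Tr {r : ℕ} (m : M (r + 1)) (a : M r) (c : Bool) (b : M r) : Prop :=
  ∃ u v, m = mk (r + 1) (u ++ c :: v) ∧ a = mk r u ∧ b = mk r v

theorem Tr_mk {r : ℕ} {w : List Bool} {a b : M r} {c : Bool} :
    Tr (mk (r + 1) w) a c b ↔ ∃ u v, w = u ++ c :: v ∧ a = mk r u ∧ b = mk r v := by
  constructor
  · rintro ⟨u, v, h, rfl, rfl⟩
    obtain ⟨u', v', e, h1, h2⟩ := (mk_eq.1 h).2 u c v rfl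
    exact ⟨u', v', e, (mk_eq.2 h1).symm, (mk_eq.2 h2).symm⟩
  · rintro ⟨u, v, rfl, rfl, rfl⟩
    exact ⟨u, v, rfl, rfl, rfl⟩

theorem Tr_inj {r : ℕ} {m m' : M (r + 1)} (h : Tr m = Tr m') : m = m' := by
  obtain ⟨w, rfl⟩ := mk_surj m
  obtain ⟨w', rfl⟩ := mk_surj m'
  refine mk_eq.2 ⟨fun u c v e => ?_, fun u c v e => ?_⟩
  · have : Tr (mk (r + 1) w') (mk r u) c (mk r v) := h ▸ Tr_mk.2 ⟨u, v, e, rfl, rfl⟩
    obtain ⟨u', v', e', h1, h2⟩ := Tr_mk.1 this
    exact ⟨u', v', e', mk_eq.1 h1, mk_eq.1 h2⟩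
  · have : Tr (mk (r + 1) w) (mk r u) c (mk r v) := h ▸ Tr_mk.2 ⟨u, v, e, rfl, rfl⟩
    obtain ⟨u', v', e', h1, h2⟩ := Tr_mk.1 this
    exact ⟨u', v', e', mk_eq.1 h1.symm, mk_eq.1 h2.symm⟩

instance finM : ∀ r : ℕ, Finite (M r)
  | 0 => by
    have : Subsingleton (M 0) := ⟨fun a b => Quotient.inductionOn₂ a b fun _ _ =>
      mk_eq.2 trivial⟩
    infer_instance
  | r + 1 => by
    have := finM r
    exact Finite.of_injective (fun m : M (r + 1) => Tr m) fun _ _ h => Tr_inj h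

theorem Tr_prod {r : ℕ} {m : M (r + 1)} {a b : M r} {c : Bool} (h : Tr m a c b) :
    pr m = a * ltr r c * b := by
  obtain ⟨u, v, rfl, rfl, rfl⟩ := h
  rw [pr_mk, mk_split]

theorem Tr_mul {r : ℕ} {m m' : M (r + 1)} {a b : M r} {c : Bool} :
    Tr (m * m') a c b ↔ (∃ b', Tr m a c b' ∧ b = b' * pr m') ∨
      ∃ a', Tr m' a' c b ∧ a = pr m * a' := by
  obtain ⟨w, rfl⟩ := mk_surj m
  obtain ⟨w', rfl⟩ := mk_surj m'
  rw [← mk_append, Tr_mk]
  constructor
  · rintro ⟨u, v, e, rfl, rfl⟩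
    rcases split_append e with ⟨v', e1, rfl⟩ | ⟨u', e1, rfl⟩
    · exact Or.inl ⟨_, Tr_mk.2 ⟨u, v', e1, rfl, rfl⟩, rfl⟩
    · exact Or.inr ⟨_, Tr_mk.2 ⟨u', v, e1, rfl, rfl⟩, rfl⟩
  · rintro (⟨b', h, rfl⟩ | ⟨a', h, rfl⟩)
    · obtain ⟨u, v, rfl, rfl, rfl⟩ := Tr_mk.1 h
      exact ⟨u, v ++ w', by simp, rfl, rfl⟩
    · obtain ⟨u, v, rfl, rfl, rfl⟩ := Tr_mk.1 h
      exact ⟨w ++ u, v, by simp, rfl, rfl⟩

theorem Tr_one {r : ℕ} {a b : M r} {c : Bool} : ¬ Tr (1 : M (r + 1)) a c b := by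
  rw [← mk_nil, Tr_mk]; simp

theorem Tr_ltr {r : ℕ} {a b : M r} {c d : Bool} :
    Tr (ltr (r + 1) d) a c b ↔ a = 1 ∧ c = d ∧ b = 1 := by
  rw [ltr, Tr_mk]
  constructor
  · rintro ⟨u, v, e, rfl, rfl⟩
    cases u with
    | nil => simp only [List.nil_append, List.cons.injEq] at e; rw [← e.2, e.1]; exact ⟨rfl, rfl, rfl⟩
    | cons x u => simp at e
  · rintro ⟨rfl, rfl, rfl⟩
    exact ⟨[], [], rfl, rfl, rfl⟩

theorem Tr_mul3 {r : ℕ} {m m' : M (r + 1)} {a b : M r} {c d : Bool} :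
    Tr (m * ltr (r + 1) d * m') a c b ↔ (∃ b', Tr m a c b' ∧ b = b' * ltr r d * pr m') ∨
      (a = pr m ∧ c = d ∧ b = pr m') ∨ ∃ a', Tr m' a' c b ∧ a = pr m * ltr r d * a' := by
  simp only [Tr_mul, Tr_ltr, map_mul, pr_ltr]
  constructor
  · rintro (⟨b', ⟨b'', h, rfl⟩ | ⟨a', ⟨rfl, rfl, rfl⟩, rfl⟩, rfl⟩ | h)
    · exact Or.inl ⟨b'', h, rfl⟩
    · simp
    · exact Or.inr (Or.inr h)
  · rintro (⟨b', h, rfl⟩ | ⟨rfl, rfl, rfl⟩ | h)
    · exact Or.inl ⟨_, Or.inl ⟨b', h, rfl⟩, rfl⟩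
    · exact Or.inl ⟨1, Or.inr ⟨1, ⟨rfl, rfl, rfl⟩, by simp⟩, by simp⟩
    · exact Or.inr h

theorem Tr_pow {r : ℕ} {m : M (r + 1)} {c : Bool} (n : ℕ) {a b : M r} :
    Tr (m ^ n) a c b ↔ ∃ i j a' b', i + j + 1 = n ∧ Tr m a' c b' ∧
      a = pr m ^ i * a' ∧ b = b' * pr m ^ j := by
  induction n generalizing a b with
  | zero => simp [Tr_one]
  | succ n ih =>
    rw [pow_succ, Tr_mul]
    constructor
    · rintro (⟨b', h, rfl⟩ | ⟨a', h, rfl⟩)
      · obtain ⟨i, j, a', b'', rfl, h2, rfl, rfl⟩ := ih.1 h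
        exact ⟨i, j + 1, a', b'', rfl, h2, rfl, by rw [pow_succ, mul_assoc]⟩
      · exact ⟨n, 0, a', b, rfl, h, by rw [map_pow], by simp⟩
    · rintro ⟨i, j, a', b', e, h, rfl, rfl⟩
      cases j with
      | zero =>
        obtain rfl : i = n := by omega
        exact Or.inr ⟨a', by simpa using h, by rw [map_pow]⟩
      | succ j =>
        exact Or.inl ⟨b' * pr m ^ j, ih.2 ⟨i, j, a', b', by omega, h, rfl, rfl⟩,
          by rw [pow_succ, mul_assoc]⟩

theorem aper : ∀ r : ℕ, ∃ N : ℕ, ∀ m : M r, m ^ (N + 1) = m ^ N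
  | 0 => ⟨0, fun a => by
      obtain ⟨w, h⟩ := mk_surj (a ^ (0 + 1))
      obtain ⟨w', h'⟩ := mk_surj (a ^ 0)
      rw [← h, ← h']; exact mk_eq.2 trivial⟩
  | r + 1 => by
    obtain ⟨N, hN⟩ := aper r
    have hN' : ∀ (m : M r) (k : ℕ), N ≤ k → m ^ (k + 1) = m ^ k := by
      intro m k hk
      obtain ⟨k, rfl⟩ := Nat.exists_eq_add_of_le hk
      rw [add_right_comm, pow_add m (N + 1), hN, pow_add]
    refine ⟨2 * N + 1, fun m => Tr_inj ?_⟩
    funext a c b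
    rw [Tr_pow, Tr_pow]
    ext
    constructor
    · rintro ⟨i, j, a', b', e, h, rfl, rfl⟩
      rcases le_or_gt i N with k | k
      · obtain ⟨j, rfl⟩ : ∃ j', j = j' + 1 := ⟨j - 1, by omega⟩
        exact ⟨i, j, a', b', by omega, h, rfl, by rw [hN' _ j (by omega)]⟩
      · obtain ⟨i, rfl⟩ : ∃ i', i = i' + 1 := ⟨i - 1, by omega⟩
        exact ⟨i, j, a', b', by omega, h, by rw [hN' _ i (by omega)], rfl⟩
    · rintro ⟨i, j, a', b', e, h, rfl, rfl⟩
      rcases le_or_gt i N with k | k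
      · exact ⟨i, j + 1, a', b', by omega, h, rfl, by rw [hN' _ j (by omega)]⟩
      · exact ⟨i + 1, j, a', b', by omega, h, by rw [hN' _ i (by omega)], rfl⟩

variable {r : ℕ}

theorem absorb {a x y : M r} (h : a = x * a * y) : a = a * y ∧ a = x * a := by
  obtain ⟨N, hN⟩ := aper r
  have : ∀ n : ℕ, a = x ^ n * a * y ^ n := by
    intro n
    induction n with
    | zero => simp
    | succ n ih =>
      calc a = x ^ n * a * y ^ n := ih
        _ = x ^ n * (x * a * y) * y ^ n := by rw [← h]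
        _ = _ := by rw [pow_succ, pow_succ']; simp only [mul_assoc]
  constructor
  · calc a = x ^ N * a * y ^ N := this N
      _ = x ^ N * a * y ^ N * y := by rw [mul_assoc _ (y ^ N), ← pow_succ, hN]
      _ = _ := by rw [← this N]
  · calc a = x ^ N * a * y ^ N := this N
      _ = x * (x ^ N * a * y ^ N) := by rw [← mul_assoc, ← mul_assoc, ← pow_succ', hN]
      _ = _ := by rw [← this N]

def LeJ (a b : M r) : Prop := ∃ x y, a = x * b * y
def LeR (a b : M r) : Prop := ∃ y, a = b * y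
def LeL (a b : M r) : Prop := ∃ x, a = x * b

theorem LeJ.refl (a : M r) : LeJ a a := ⟨1, 1, by simp⟩
theorem LeR.refl (a : M r) : LeR a a := ⟨1, by simp⟩
theorem LeL.refl (a : M r) : LeL a a := ⟨1, by simp⟩

theorem LeJ.trans {a b c : M r} (h : LeJ a b) (h' : LeJ b c) : LeJ a c := by
  obtain ⟨x, y, rfl⟩ := h
  obtain ⟨x', y', rfl⟩ := h'
  exact ⟨x * x', y' * y, by simp only [mul_assoc]⟩

theorem LeR.trans {a b c : M r} (h : LeR a b) (h' : LeR b c) : LeR a c := by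
  obtain ⟨y, rfl⟩ := h
  obtain ⟨y', rfl⟩ := h'
  exact ⟨y' * y, by simp only [mul_assoc]⟩

theorem LeL.trans {a b c : M r} (h : LeL a b) (h' : LeL b c) : LeL a c := by
  obtain ⟨x, rfl⟩ := h
  obtain ⟨x', rfl⟩ := h'
  exact ⟨x * x', by simp only [mul_assoc]⟩

theorem LeR.J {a b : M r} (h : LeR a b) : LeJ a b := by
  obtain ⟨y, rfl⟩ := h; exact ⟨1, y, by simp⟩

theorem LeL.J {a b : M r} (h : LeL a b) : LeJ a b := by
  obtain ⟨x, rfl⟩ := h; exact ⟨x, 1, by simp⟩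

theorem LeJ.pr {a b : M (r + 1)} (h : LeJ a b) : LeJ (pr a) (pr b) := by
  obtain ⟨x, y, rfl⟩ := h; exact ⟨_, _, by rw [map_mul, map_mul]⟩

theorem LeR.pr {a b : M (r + 1)} (h : LeR a b) : LeR (pr a) (pr b) := by
  obtain ⟨y, rfl⟩ := h; exact ⟨_, by rw [map_mul]⟩

theorem LeL.pr {a b : M (r + 1)} (h : LeL a b) : LeL (pr a) (pr b) := by
  obtain ⟨y, rfl⟩ := h; exact ⟨_, by rw [map_mul]⟩

theorem LeR.left {a b : M r} (h : LeR a b) (k : M r) : LeR (k * a) (k * b) := by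
  obtain ⟨y, rfl⟩ := h; exact ⟨y, by rw [mul_assoc]⟩

theorem LeL.right {a b : M r} (h : LeL a b) (k : M r) : LeL (a * k) (b * k) := by
  obtain ⟨y, rfl⟩ := h; exact ⟨y, by rw [mul_assoc]⟩

theorem stabR {a b : M r} (h : LeR b a) (h' : LeJ a b) : LeR a b := by
  obtain ⟨z, rfl⟩ := h
  obtain ⟨x, y, e⟩ := h'
  exact ⟨y, by rw [mul_assoc]; exact (absorb (x := x) (by simpa only [mul_assoc] using e)).1⟩

theorem stabL {a b : M r} (h : LeL b a) (h' : LeJ a b) : LeL a b := by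
  obtain ⟨z, rfl⟩ := h
  obtain ⟨x, y, e⟩ := h'
  exact ⟨x, by rw [← mul_assoc]; exact (absorb (y := y) (by simpa only [mul_assoc] using e)).2⟩

theorem htriv {a b : M r} (h : LeR b a) (h' : LeL a b) : a = b := by
  obtain ⟨y, rfl⟩ := h
  obtain ⟨x, e⟩ := h'
  exact (absorb (x := x) (by simpa only [mul_assoc] using e)).1

theorem cancelL {m n n' k : M r} (h : LeR n m) (h' : LeR n' m) (e : k * n = k * n')
    (j : LeJ m (k * n)) : n = n' := by
  obtain ⟨a, rfl⟩ := h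
  obtain ⟨a', rfl⟩ := h'
  obtain ⟨x, y, j⟩ := j
  have := (absorb (x := x * k) (y := a * y) (by simpa only [mul_assoc] using j)).2
  calc m * a = x * k * m * a := by rw [← this]
    _ = x * (k * (m * a')) := by rw [← e]; simp only [mul_assoc]
    _ = x * k * m * a' := by simp only [mul_assoc]
    _ = _ := by rw [← this]

theorem cancelR {m n n' k : M r} (h : LeL n m) (h' : LeL n' m) (e : n * k = n' * k)
    (j : LeJ m (n * k)) : n = n' := by
  obtain ⟨a, rfl⟩ := h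
  obtain ⟨a', rfl⟩ := h'
  obtain ⟨x, y, j⟩ := j
  have := (absorb (x := x * a) (y := k * y) (by simpa only [mul_assoc] using j)).1
  calc a * m = a * (m * (k * y)) := by rw [← this]
    _ = a' * m * k * y := by rw [← e]; simp only [mul_assoc]
    _ = a' * (m * (k * y)) := by simp only [mul_assoc]
    _ = _ := by rw [← this]

/-- The corner of the rectangle: an element in a given `R`-class and a given `L`-class. -/
theorem corner {α β γ : M r} (h1 : LeR α γ) (h2 : LeR γ α) (h3 : LeL β γ) (h4 : LeL γ β) :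
    ∃ m, LeR m β ∧ LeR β m ∧ LeL m α ∧ LeL α m := by
  obtain ⟨h, e1⟩ := h1
  obtain ⟨h', e2⟩ := h2
  obtain ⟨k', e3⟩ := h3
  obtain ⟨k, e4⟩ := h4
  refine ⟨β * h, ⟨h, rfl⟩, ⟨h', ?_⟩, ⟨k', ?_⟩, ⟨k, ?_⟩⟩
  · calc β = k' * γ := e3
      _ = k' * (γ * h * h') := by rw [← e1, ← e2]
      _ = _ := by rw [e3]; simp only [mul_assoc]
  · rw [e3, e1, mul_assoc]
  · rw [← mul_assoc, ← e4, e1]

theorem exists_max {S : Set (M r)} (h : S.Nonempty) :
    ∃ j ∈ S, ∀ a ∈ S, LeJ j a → LeJ a j := by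
  obtain ⟨j, hj, hm⟩ := Set.exists_max_image S (fun j => {b | LeJ b j}.ncard) S.toFinite h
  refine ⟨j, hj, fun a ha hja => ?_⟩
  have : {b | LeJ b j} = {b | LeJ b a} :=
    Set.eq_of_subset_of_ncard_le (fun b hb => LeJ.trans hb hja) (hm a ha)
  have h2 : a ∈ {b | LeJ b j} := this ▸ LeJ.refl a
  exact h2

end Pool.Agent.H270Z.Ord
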