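import Mathlib
import Pool.Agent.H270Z.Ord.Mon

/-! Typed orders and the Ehrenfeucht-Fraisse lemma. -/

set_option autoImplicit false

namespace Pool.Agent.H270Z.Ord

open FirstOrder FirstOrder.Language

/-- A coloured linear order with the rank-`r` types of its open intervals. -/
structure TO (X : Type) [LinearOrder X] where
  c : X → Bool
  t : ∀ r, X → X → M r
  mul : ∀ r x y z, x < y → y < z → t r x z = t r x y * ltr r (c y) * t r y z
  proj : ∀ r x y, x < y → pr (t (r + 1) x y) = t r x y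
  wit : ∀ r x y a c' b, x < y → Tr (t (r + 1) x y) a c' b →
    ∃ z, x < z ∧ z < y ∧ t r x z = a ∧ c z = c' ∧ t r z y = b

variable {X Y : Type} [LinearOrder X] [LinearOrder Y]

structure Good (P : TO X) (Q : TO Y) (r : ℕ) (R : X → Y → Prop) : Prop where
  lt : ∀ a a' b b', R a a' → R b b' → (a < b ↔ a' < b')
  col : ∀ a a', R a a' → P.c a = Q.c a'
  ty : ∀ a a' b b', R a a' → R b b' → a < b → P.t r a b = Q.t r a' b'

theorem Good.flip {P : TO X} {Q : TO Y} {r : ℕ} {R : X → Y → Prop} (h : Good P Q r R) :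
    Good Q P r (fun a b => R b a) :=
  ⟨fun _ _ _ _ u v => (h.lt _ _ _ _ u v).symm, fun _ _ u => (h.col _ _ u).symm,
    fun _ _ _ _ u v w => (h.ty _ _ _ _ u v ((h.lt _ _ _ _ u v).2 w)).symm⟩

theorem Good.down {P : TO X} {Q : TO Y} {r : ℕ} {R : X → Y → Prop} (h : Good P Q (r + 1) R) :
    Good P Q r R :=
  ⟨h.lt, h.col, fun a a' b b' u v w => by
    rw [← P.proj r a b w, ← Q.proj r a' b' ((h.lt _ _ _ _ u v).1 w), h.ty _ _ _ _ u v w]⟩

theorem Good.eq {P : TO X} {Q : TO Y} {r : ℕ} {R : X → Y → Prop} (h : Good P Q r R)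
    {a b : X} {a' b' : Y} (u : R a a') (v : R b b') : a = b ↔ a' = b' := by
  have h1 := h.lt _ _ _ _ u v
  have h2 := h.lt _ _ _ _ v u
  constructor
  · rintro rfl
    exact le_antisymm (not_lt.1 fun k => lt_irrefl _ (h2.2 k)) (not_lt.1 fun k => lt_irrefl _ (h1.2 k))
  · rintro rfl
    exact le_antisymm (not_lt.1 fun k => lt_irrefl _ (h2.1 k)) (not_lt.1 fun k => lt_irrefl _ (h1.1 k))

theorem forth {P : TO X} {Q : TO Y} {r : ℕ} {R : X → Y → Prop} (h : Good P Q (r + 1) R)
    (hf : {x | ∃ y, R x y}.Finite) {b0 t0 : X} {b0' t0' : Y} (hb : R b0 b0') (ht : R t0 t0')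
    {z : X} (h1 : b0 < z) (h2 : z < t0) :
    ∃ z', b0' < z' ∧ z' < t0' ∧ Good P Q r (fun a b => R a b ∨ (a = z ∧ b = z')) := by
  by_cases hz : ∃ z', R z z'
  · obtain ⟨z', hz⟩ := hz
    refine ⟨z', (h.lt _ _ _ _ hb hz).1 h1, (h.lt _ _ _ _ hz ht).1 h2, ?_⟩
    have : (fun a b => R a b ∨ (a = z ∧ b = z')) = R := by
      funext a b
      exact propext ⟨fun k => k.elim id fun k => k.1 ▸ k.2 ▸ hz, Or.inl⟩
    rw [this]
    exact h.down
  obtain ⟨a, ⟨⟨a', ha⟩, az⟩, am⟩ := Set.exists_max_image {x | (∃ y, R x y) ∧ x < z} id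
    (hf.subset fun x hx => hx.1) ⟨b0, ⟨_, hb⟩, h1⟩
  obtain ⟨b, ⟨⟨b', hb'⟩, zb⟩, bm⟩ := Set.exists_min_image {x | (∃ y, R x y) ∧ z < x} id
    (hf.subset fun x hx => hx.1) ⟨t0, ⟨_, ht⟩, h2⟩
  have ab := az.trans zb
  have hT : Tr (P.t (r + 1) a b) (P.t r a z) (P.c z) (P.t r z b) := by
    rw [P.mul _ a z b az zb, Tr_mul3]
    exact Or.inr (Or.inl ⟨(P.proj _ _ _ az).symm, rfl, (P.proj _ _ _ zb).symm⟩)
  rw [h.ty _ _ _ _ ha hb' ab] at hT
  obtain ⟨z', k1, k2, k3, k4, k5⟩ := Q.wit r a' b' _ _ _ ((h.lt _ _ _ _ ha hb').1 ab) hT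
  have g := h.down
  have lo : ∀ e e', R e e' → e < z → e' < z' ∧ P.t r e z = Q.t r e' z' := by
    intro e e' he hez
    rcases (am e ⟨⟨_, he⟩, hez⟩).lt_or_eq with k | k
    · have k' := (h.lt _ _ _ _ he ha).1 k
      refine ⟨k'.trans k1, ?_⟩
      rw [P.mul r e a z k az, Q.mul r e' a' z' k' k1, g.ty _ _ _ _ he ha k, g.col _ _ ha, k3]
    · have k' := (h.eq he ha).1 k
      obtain rfl : e = a := k
      rw [k']
      exact ⟨k1, k3.symm⟩
  have hi : ∀ e e', R e e' → z < e → z' < e' ∧ P.t r z e = Q.t r z' e' := by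
    intro e e' he hez
    rcases (bm e ⟨⟨_, he⟩, hez⟩).lt_or_eq with k | k
    · have k' := (h.lt _ _ _ _ hb' he).1 k
      refine ⟨k2.trans k', ?_⟩
      rw [P.mul r z b e zb k, Q.mul r z' b' e' k2 k', g.ty _ _ _ _ hb' he k, g.col _ _ hb', k5]
    · have k' := (h.eq hb' he).1 k
      obtain rfl : b = e := k
      rw [← k']
      exact ⟨k2, k5.symm⟩
  have tri : ∀ e e', R e e' → e < z ∨ z < e := fun e e' he =>
    lt_or_gt_of_ne fun k => hz ⟨e', k ▸ he⟩
  refine ⟨z', (lo _ _ hb h1).1, (hi _ _ ht h2).1, ?_, ?_, ?_⟩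
  · rintro e e' f f' (he | ⟨rfl, rfl⟩) (hf | ⟨rfl, rfl⟩)
    · exact h.lt _ _ _ _ he hf
    · exact ⟨fun k => (lo _ _ he k).1, fun k => (tri _ _ he).resolve_right fun k' =>
        lt_asymm k (hi _ _ he k').1⟩
    · exact ⟨fun k => (hi _ _ hf k).1, fun k => (tri _ _ hf).resolve_left fun k' =>
        lt_asymm k (lo _ _ hf k').1⟩
    · simp
  · rintro e e' (he | ⟨rfl, rfl⟩)
    · exact h.col _ _ he
    · exact k4.symm
  · rintro e e' f f' (he | ⟨rfl, rfl⟩) (hf | ⟨rfl, rfl⟩) k
    · exact g.ty _ _ _ _ he hf k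
    · exact (lo _ _ he k).2
    · exact (hi _ _ hf k).2
    · exact absurd k (lt_irrefl _)

theorem Good.le {P : TO X} {Q : TO Y} {R : X → Y → Prop} {r s : ℕ} (hrs : s ≤ r)
    (h : Good P Q r R) : Good P Q s R := by
  induction r, hrs using Nat.le_induction with
  | base => exact h
  | succ k _ ih => exact ih h.down

/-- Quantifier depth. -/
def qd {L : FirstOrder.Language.{0, 0}} {α : Type} : ∀ {n : ℕ}, L.BoundedFormula α n → ℕ
  | _, .falsum => 0
  | _, .equal _ _ => 0
  | _, .rel _ _ => 0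
  | _, .imp f g => max (qd f) (qd g)
  | _, .all f => qd f + 1

/-- The language has one binary and one unary relation symbol and nothing else. -/
structure Lang (L : FirstOrder.Language.{0, 0}) (lt : L.Relations 2) (col : L.Relations 1) : Prop where
  fn : ∀ n, IsEmpty (L.Functions n)
  two : ∀ r : L.Relations 2, r = lt
  one : ∀ r : L.Relations 1, r = col
  oth : ∀ n, n ≠ 1 → n ≠ 2 → IsEmpty (L.Relations n)

/-- The structure `A` is the open interval `(b, t)` of the typed order `P`. -/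
structure Pres {L : FirstOrder.Language.{0, 0}} (lt : L.Relations 2) (col : L.Relations 1) (A : Type)
    [L.Structure A] (P : TO X) (ι : A → X) (b t : X) : Prop where
  inj : Function.Injective ι
  mem : ∀ a, b < ι a ∧ ι a < t
  surj : ∀ z, b < z → z < t → ∃ a, ι a = z
  lt : ∀ a a', Structure.RelMap lt ![a, a'] ↔ ι a < ι a'
  col : ∀ a, Structure.RelMap col ![a] ↔ P.c (ι a) = true

theorem ef {L : FirstOrder.Language.{0, 0}} {lt : L.Relations 2} {col : L.Relations 1} (hL : Lang L lt col)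
    {A B : Type} [L.Structure A] [L.Structure B] {P : TO X} {Q : TO Y} {ι : A → X} {κ : B → Y}
    {b t : X} {b' t' : Y} (hA : Pres lt col A P ι b t) (hB : Pres lt col B Q κ b' t') {α : Type}
    (v : α → A) (v' : α → B) {n : ℕ} (φ : L.BoundedFormula α n) :
    ∀ (R : X → Y → Prop), Good P Q (qd φ) R → {x | ∃ y, R x y}.Finite → {y | ∃ x, R x y}.Finite →
      R b b' → R t t' → (∀ i, R (ι (v i)) (κ (v' i))) → ∀ (xs : Fin n → A) (xs' : Fin n → B),
        (∀ i, R (ι (xs i)) (κ (xs' i))) → (φ.Realize v xs ↔ φ.Realize v' xs') := by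
  have term : ∀ {n : ℕ} (R : X → Y → Prop), (∀ i, R (ι (v i)) (κ (v' i))) →
      ∀ (xs : Fin n → A) (xs' : Fin n → B), (∀ i, R (ι (xs i)) (κ (xs' i))) →
      ∀ s : L.Term (α ⊕ Fin n),
        R (ι (s.realize (Sum.elim v xs))) (κ (s.realize (Sum.elim v' xs'))) := by
    intro n R hv xs xs' hx s
    cases s with
    | var i => cases i with
      | inl i => exact hv i
      | inr i => exact hx i
    | func f _ => exact ((hL.fn _).false f).elim
  induction φ with
  | falsum => intros; rfl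
  | equal s s' =>
    intro R g _ _ _ _ hv xs xs' hx
    simp only [BoundedFormula.Realize]
    rw [← hA.inj.eq_iff, ← hB.inj.eq_iff]
    exact g.eq (term R hv xs xs' hx s) (term R hv xs xs' hx s')
  | @rel n l S ts =>
    intro R g _ _ _ _ hv xs xs' hx
    simp only [BoundedFormula.Realize]
    by_cases h1 : l = 1
    · subst h1
      rw [hL.one S]
      have e : ∀ {C : Type} (f : Fin 1 → C), f = ![f 0] := fun f => by
        funext i; fin_cases i; rfl
      rw [e (fun i => (ts i).realize (Sum.elim v xs)), e (fun i => (ts i).realize (Sum.elim v' xs')),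
        hA.col, hB.col, g.col _ _ (term R hv xs xs' hx _)]
    by_cases h2 : l = 2
    · subst h2
      rw [hL.two S]
      have e : ∀ {C : Type} (f : Fin 2 → C), f = ![f 0, f 1] := fun f => by
        funext i; fin_cases i <;> rfl
      rw [e (fun i => (ts i).realize (Sum.elim v xs)), e (fun i => (ts i).realize (Sum.elim v' xs')),
        hA.lt, hB.lt]
      exact g.lt _ _ _ _ (term R hv xs xs' hx _) (term R hv xs xs' hx _)
    exact ((hL.oth l h1 h2).false S).elim
  | imp f g ihf ihg =>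
    intro R h f1 f2 hb ht hv xs xs' hx
    simp only [BoundedFormula.realize_imp]
    rw [ihf R (h.le (le_max_left _ _)) f1 f2 hb ht hv xs xs' hx,
      ihg R (h.le (le_max_right _ _)) f1 f2 hb ht hv xs xs' hx]
  | all f ih =>
    intro R h f1 f2 hb ht hv xs xs' hx
    simp only [BoundedFormula.realize_all]
    have step : ∀ (a : A) (a' : B),
        Good P Q (qd f) (fun x y => R x y ∨ (x = ι a ∧ y = κ a')) →
        (f.Realize v (Fin.snoc xs a) ↔ f.Realize v' (Fin.snoc xs' a')) := by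
      intro a a' g
      refine ih _ g ((f1.insert (ι a)).subset ?_) ((f2.insert (κ a')).subset ?_) (Or.inl hb)
        (Or.inl ht) (fun i => Or.inl (hv i)) _ _ fun i => ?_
      · rintro x ⟨y, k | k⟩
        · exact Or.inr ⟨y, k⟩
        · exact Or.inl k.1
      · rintro y ⟨x, k | k⟩
        · exact Or.inr ⟨x, k⟩
        · exact Or.inl k.2
      · refine Fin.lastCases ?_ (fun i => ?_) i
        · simp
        · simp [hx i]
    constructor
    · intro H a'
      obtain ⟨z, z1, z2, g⟩ := forth h.flip f2 hb ht (hB.mem a').1 (hB.mem a').2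
      obtain ⟨a, rfl⟩ := hA.surj z z1 z2
      refine (step a a' ?_).1 (H a)
      simpa only [and_comm] using g.flip
    · intro H a
      obtain ⟨z, z1, z2, g⟩ := forth h f1 hb ht (hA.mem a).1 (hA.mem a).2
      obtain ⟨a', rfl⟩ := hB.surj z z1 z2
      exact (step a a' g).2 (H a')

/-- The word between two positions. -/
def seg (f : ℕ → Bool) (a b : ℕ) : List Bool := (List.range' (a + 1) (b - a - 1)).map f

theorem seg_split (f : ℕ → Bool) {a z b : ℕ} (h : a < z) (h' : z < b) :
    seg f a b = seg f a z ++ f z :: seg f z b := by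
  obtain ⟨i, rfl⟩ := Nat.exists_eq_add_of_lt h
  obtain ⟨j, rfl⟩ := Nat.exists_eq_add_of_lt h'
  unfold seg
  rw [show a + i + 1 + j + 1 - a - 1 = i + (j + 1) by omega, show a + i + 1 - a - 1 = i by omega,
    show a + i + 1 + j + 1 - (a + i + 1) - 1 = j by omega, ← List.range'_append, List.range'_succ]
  simp [add_right_comm]

/-- The typed order of an infinite word. -/
def wordTO (f : ℕ → Bool) : TO ℕ where
  c := f
  t r a b := mk r (seg f a b)
  mul r x y z h h' := by rw [seg_split f h h', mk_split]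
  proj r x y _ := rfl
  wit r x y a c b h hT := by
    obtain ⟨u, v, e, rfl, rfl⟩ := Tr_mk.1 hT
    have hl := congrArg List.length e
    simp only [seg, List.length_map, List.length_range', List.length_append,
      List.length_cons] at hl
    have h1 : x < x + u.length + 1 := by omega
    have h2 : x + u.length + 1 < y := by omega
    rw [seg_split f h1 h2] at e
    obtain ⟨e1, e2⟩ := List.append_inj e (by simp [seg]; omega)
    simp only [List.cons.injEq] at e2
    exact ⟨_, h1, h2, by rw [e1], e2.1, by rw [e2.2]⟩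

end Pool.Agent.H270Z.Ord
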