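import Mathlib
import Pool.Agent.H270Z.Ord.EF

/-! Amalgamation of typed orders over a common part `D`, inside `J`-stable cuts. -/

set_option autoImplicit false

namespace Pool.Agent.H270Z.Ord

variable {X B : Type} [LinearOrder X]

def Com (D : Set X) (bl : X → B) (x y : X) : Prop := x ∈ D ∨ y ∈ D ∨ bl x = bl y

structure GoodAt (D : Set X) {r : ℕ} (t : X → X → M r) (x u0 v0 : X) : Prop where
  hu : u0 ∈ D
  hv : v0 ∈ D
  ux : u0 < x
  xv : x < v0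
  lo : ∀ u ∈ D, u0 ≤ u → u < x → ∃ u' ∈ D, u < u' ∧ u' < x ∧ LeJ (t u u') (t u0 v0)
  hi : ∀ v ∈ D, x < v → v ≤ v0 → ∃ v' ∈ D, x < v' ∧ v' < v ∧ LeJ (t v' v) (t u0 v0)

structure Pre (X B : Type) [LinearOrder X] where
  D : Set X
  bl : X → B
  c : X → Bool
  t : ∀ r, X → X → M r
  mul : ∀ r x y z, x < y → y < z → Com D bl x y → Com D bl y z → Com D bl x z →
    t r x z = t r x y * ltr r (c y) * t r y z
  proj : ∀ r x y, x < y → Com D bl x y → pr (t (r + 1) x y) = t r x y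
  wit : ∀ r x y a c' b, x < y → Com D bl x y → Tr (t (r + 1) x y) a c' b →
    ∃ z, x < z ∧ z < y ∧ Com D bl x z ∧ Com D bl z y ∧ t r x z = a ∧ c z = c' ∧ t r z y = b
  least : ∀ r x v a c' b, x ∉ D → v ∈ D → x < v → Tr (t (r + 1) x v) a c' b →
    (∀ v' ∈ D, x < v' → v' < v →
      ∃ z, x < z ∧ z < v' ∧ Com D bl x z ∧ t r x z = a ∧ c z = c' ∧ t r z v = b) →
    ∃ w, w ∉ D ∧ bl w = bl x ∧ x < w ∧ w < v ∧ t r x w = a ∧ c w = c' ∧ t r w v = b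
  conv : ∀ x y z, x ∉ D → y ∉ D → bl x = bl y → x < z → z < y → z ∉ D ∧ bl z = bl x
  good : ∀ r x, x ∉ D → ∃ u0 v0, GoodAt D (t r) x u0 v0

namespace Pre

variable (S : Pre X B)

def TT (r : ℕ) (x y : X) (m : M r) : Prop :=
  (Com S.D S.bl x y ∧ m = S.t r x y) ∨
  (¬ Com S.D S.bl x y ∧ ∃ d ∈ S.D, x < d ∧ d < y ∧ m = S.t r x d * ltr r (S.c d) * S.t r d y) ∨
  (¬ Com S.D S.bl x y ∧ (¬ ∃ d ∈ S.D, x < d ∧ d < y) ∧ ∃ u0 ∈ S.D, ∃ v0 ∈ S.D, u0 < x ∧ y < v0 ∧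
    ∀ u ∈ S.D, ∀ v ∈ S.D, u0 ≤ u → u < x → y < v → v ≤ v0 →
      LeR m (S.t r x v) ∧ LeR (S.t r x v) m ∧ LeL m (S.t r u y) ∧ LeL (S.t r u y) m)

variable {S} {r : ℕ}

theorem mulD {x y z : X} (h : x < y) (h' : y < z)
    (k : (x ∈ S.D ∧ y ∈ S.D) ∨ (x ∈ S.D ∧ z ∈ S.D) ∨ (y ∈ S.D ∧ z ∈ S.D)) :
    S.t r x z = S.t r x y * ltr r (S.c y) * S.t r y z := by
  refine S.mul r x y z h h' ?_ ?_ ?_ <;> unfold Com <;> tauto

theorem TT_unique {x y : X} {m m' : M r} (h : S.TT r x y m) (h' : S.TT r x y m') : m = m' := by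
  rcases h with ⟨a, rfl⟩ | ⟨a, d, hd, d1, d2, rfl⟩ | ⟨a, b, u, hu, v, hv, u1, v1, H⟩ <;>
  rcases h' with ⟨a', rfl⟩ | ⟨a', d', hd', d1', d2', rfl⟩ | ⟨a', b', u', hu', v', hv', u1', v1', H'⟩
  · rfl
  · exact absurd a a'
  · exact absurd a a'
  · exact absurd a' a
  · rcases lt_trichotomy d d' with k | rfl | k
    · rw [mulD d1 k (by tauto), mulD k d2' (by tauto)]; simp only [mul_assoc]
    · rfl
    · rw [mulD d1' k (by tauto), mulD k d2 (by tauto)]; simp only [mul_assoc]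
  · exact absurd ⟨d, hd, d1, d2⟩ b'
  · exact absurd a' a
  · exact absurd ⟨d', hd', d1', d2'⟩ b
  · have m1 : max u u' ∈ S.D := by rcases max_choice u u' with e | e <;> rwa [e]
    have m2 : min v v' ∈ S.D := by rcases min_choice v v' with e | e <;> rwa [e]
    obtain ⟨_, p2, p3, _⟩ := H _ m1 _ m2 (le_max_left _ _) (max_lt u1 u1') (lt_min v1 v1')
      (min_le_left _ _)
    obtain ⟨q1, _, _, q4⟩ := H' _ m1 _ m2 (le_max_right _ _) (max_lt u1 u1') (lt_min v1 v1')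
      (min_le_right _ _)
    exact htriv (q1.trans p2) (p3.trans q4)

section loc

variable {x u0 v0 u v : X}

theorem _root_.Pool.Agent.H270Z.Ord.GoodAt.move {y : X} (g : GoodAt S.D (S.t r) x u0 v0)
    (hx : x ∉ S.D) (hy : y ∉ S.D) (xy : x < y) (h : ¬ ∃ d ∈ S.D, x < d ∧ d < y) :
    GoodAt S.D (S.t r) y u0 v0 := by
  have e1 : ∀ d ∈ S.D, x < d → y < d := fun d hd k =>
    lt_of_le_of_ne (not_lt.1 fun k' => h ⟨d, hd, k, k'⟩) fun e => hy (e ▸ hd)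
  have e2 : ∀ d ∈ S.D, d < y → d < x := fun d hd k =>
    lt_of_le_of_ne (not_lt.1 fun k' => h ⟨d, hd, k', k⟩) fun e => hx (e ▸ hd)
  refine ⟨g.hu, g.hv, g.ux.trans xy, e1 _ g.hv g.xv, fun u hu a b => ?_, fun v hv a b => ?_⟩
  · obtain ⟨u', h1, h2, h3, h4⟩ := g.lo u hu a (e2 u hu b)
    exact ⟨u', h1, h2, h3.trans xy, h4⟩
  · obtain ⟨v', h1, h2, h3, h4⟩ := g.hi v hv (xy.trans a) b
    exact ⟨v', h1, e1 _ h1 h2, h3, h4⟩

theorem _root_.Pool.Agent.H270Z.Ord.GoodAt.down (g : GoodAt S.D (S.t (r + 1)) x u0 v0) :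
    GoodAt S.D (S.t r) x u0 v0 := by
  refine ⟨g.hu, g.hv, g.ux, g.xv, fun u hu a b => ?_, fun v hv a b => ?_⟩
  · obtain ⟨u', h1, h2, h3, h4⟩ := g.lo u hu a b
    have := h4.pr
    rw [S.proj _ _ _ h2 (Or.inl hu), S.proj _ _ _ (g.ux.trans g.xv) (Or.inl g.hu)] at this
    exact ⟨u', h1, h2, h3, this⟩
  · obtain ⟨v', h1, h2, h3, h4⟩ := g.hi v hv a b
    have := h4.pr
    rw [S.proj _ _ _ h3 (Or.inl h1), S.proj _ _ _ (g.ux.trans g.xv) (Or.inl g.hu)] at this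
    exact ⟨v', h1, h2, h3, this⟩

theorem leL_left (hu0 : u0 ∈ S.D) (hu : u ∈ S.D) (a : u0 ≤ u) (b : u < x) :
    LeL (S.t r u0 x) (S.t r u x) := by
  rcases a.lt_or_eq with k | rfl
  · exact ⟨_, mulD k b (by tauto)⟩
  · exact LeL.refl _

theorem leR_right (hv0 : v0 ∈ S.D) (hv : v ∈ S.D) (a : v ≤ v0) (b : x < v) :
    LeR (S.t r x v0) (S.t r x v) := by
  rcases a.lt_or_eq with k | rfl
  · exact ⟨_, by rw [mulD b k (by tauto), mul_assoc]⟩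
  · exact LeR.refl _

variable (g : GoodAt S.D (S.t r) x u0 v0)
include g

theorem F1 (hu : u ∈ S.D) (a : u0 ≤ u) (b : u < x) : LeJ (S.t r u x) (S.t r u0 v0) := by
  obtain ⟨u', h1, h2, h3, h4⟩ := g.lo u hu a b
  refine LeJ.trans ?_ h4
  exact ⟨1, _, by rw [mulD h2 h3 (by tauto), one_mul, mul_assoc]⟩

theorem F2 (hv : v ∈ S.D) (b : x < v) (a : v ≤ v0) : LeJ (S.t r x v) (S.t r u0 v0) := by
  obtain ⟨v', h1, h2, h3, h4⟩ := g.hi v hv b a
  refine LeJ.trans ?_ h4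
  exact ⟨_, 1, by rw [mulD h2 h3 (by tauto), mul_one]⟩

theorem jR : LeR (S.t r u0 v0) (S.t r u0 x) :=
  ⟨_, by rw [mulD g.ux g.xv (Or.inr (Or.inl ⟨g.hu, g.hv⟩)), mul_assoc]⟩

theorem jL : LeL (S.t r u0 v0) (S.t r x v0) :=
  ⟨_, mulD g.ux g.xv (Or.inr (Or.inl ⟨g.hu, g.hv⟩))⟩

theorem F4 (hu : u ∈ S.D) (a : u0 ≤ u) (b : u < x) : LeR (S.t r u x) (S.t r u v0) :=
  stabR ⟨_, by rw [mulD b g.xv (Or.inr (Or.inl ⟨hu, g.hv⟩)), mul_assoc]⟩
    ((F1 g hu a b).trans (leL_left g.hu hu a (b.trans g.xv)).J)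

theorem F5 (hv : v ∈ S.D) (b : x < v) (a : v ≤ v0) : LeL (S.t r x v) (S.t r u0 v) :=
  stabL ⟨_, mulD g.ux b (Or.inr (Or.inl ⟨g.hu, hv⟩))⟩
    ((F2 g hv b a).trans (leR_right g.hv hv a (g.ux.trans b)).J)

theorem F6 (hv : v ∈ S.D) (b : x < v) (a : v ≤ v0) : LeR (S.t r x v) (S.t r x v0) :=
  stabR (leR_right g.hv hv a b) ((F2 g hv b a).trans (jL g).J)

theorem F7 (hu : u ∈ S.D) (a : u0 ≤ u) (b : u < x) : LeL (S.t r u x) (S.t r u0 x) :=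
  stabL (leL_left g.hu hu a b) ((F1 g hu a b).trans (jR g).J)

theorem cross {y : X} (xy : x < y) (n : ¬ Com S.D S.bl x y) (h : ¬ ∃ d ∈ S.D, x < d ∧ d < y) :
    ∃ m, S.TT r x y m ∧ ∀ u ∈ S.D, ∀ v ∈ S.D, u0 ≤ u → u < x → y < v → v ≤ v0 →
      LeR m (S.t r x v) ∧ LeR (S.t r x v) m ∧ LeL m (S.t r u y) ∧ LeL (S.t r u y) m := by
  have g' := g.move (fun k => n (Or.inl k)) (fun k => n (Or.inr (Or.inl k))) xy h
  obtain ⟨m, m1, m2, m3, m4⟩ := corner (F4 g' g.hu le_rfl g'.ux) (jR g') (F5 g g.hv g.xv le_rfl)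
    (jL g)
  have H : ∀ u ∈ S.D, ∀ v ∈ S.D, u0 ≤ u → u < x → y < v → v ≤ v0 →
      LeR m (S.t r x v) ∧ LeR (S.t r x v) m ∧ LeL m (S.t r u y) ∧ LeL (S.t r u y) m :=
    fun u hu v hv a b c d => ⟨m1.trans (leR_right g.hv hv d (xy.trans c)),
      (F6 g hv (xy.trans c) d).trans m2, m3.trans (leL_left g.hu hu a (b.trans xy)),
      (F7 g' hu a (b.trans xy)).trans m4⟩
  exact ⟨m, Or.inr (Or.inr ⟨n, h, u0, g.hu, v0, g.hv, g.ux, g'.xv, H⟩), H⟩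

end loc

theorem TT_exists (r : ℕ) {x y : X} (xy : x < y) : ∃ m, S.TT r x y m := by
  by_cases n : Com S.D S.bl x y
  · exact ⟨_, Or.inl ⟨n, rfl⟩⟩
  by_cases h : ∃ d ∈ S.D, x < d ∧ d < y
  · obtain ⟨d, h1, h2, h3⟩ := h
    exact ⟨_, Or.inr (Or.inl ⟨n, d, h1, h2, h3, rfl⟩)⟩
  obtain ⟨u0, v0, g⟩ := S.good r x fun k => n (Or.inl k)
  obtain ⟨m, hm, -⟩ := cross g xy n h
  exact ⟨m, hm⟩

open Classical in
noncomputable def tt (S : Pre X B) (r : ℕ) (x y : X) : M r :=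
  if h : ∃ m, S.TT r x y m then h.choose else 1

theorem tt_spec (r : ℕ) {x y : X} (xy : x < y) : S.TT r x y (S.tt r x y) := by
  unfold tt
  rw [dif_pos (TT_exists r xy)]
  exact (TT_exists r xy).choose_spec

theorem tt_eq {x y : X} (xy : x < y) {m : M r} (h : S.TT r x y m) : S.tt r x y = m :=
  TT_unique (tt_spec r xy) h

theorem tt_com {x y : X} (xy : x < y) (h : Com S.D S.bl x y) : S.tt r x y = S.t r x y :=
  tt_eq xy (Or.inl ⟨h, rfl⟩)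

theorem tt_l {x y : X} (xy : x < y) (h : x ∈ S.D) : S.tt r x y = S.t r x y := tt_com xy (Or.inl h)

theorem tt_r {x y : X} (xy : x < y) (h : y ∈ S.D) : S.tt r x y = S.t r x y :=
  tt_com xy (Or.inr (Or.inl h))

theorem tt_sep {x d y : X} (hd : d ∈ S.D) (h : x < d) (h' : d < y) :
    S.tt r x y = S.t r x d * ltr r (S.c d) * S.t r d y := by
  by_cases n : Com S.D S.bl x y
  · rw [tt_com (h.trans h') n, S.mul r x d y h h' (Or.inr (Or.inl hd)) (Or.inl hd) n]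
  · exact tt_eq (h.trans h') (Or.inr (Or.inl ⟨n, d, hd, h, h', rfl⟩))

theorem tt_cross {x y u0 v0 : X} (g : GoodAt S.D (S.t r) x u0 v0) (xy : x < y)
    (n : ¬ Com S.D S.bl x y) (h : ¬ ∃ d ∈ S.D, x < d ∧ d < y) :
    ∀ u ∈ S.D, ∀ v ∈ S.D, u0 ≤ u → u < x → y < v → v ≤ v0 →
      LeR (S.tt r x y) (S.t r x v) ∧ LeR (S.t r x v) (S.tt r x y) ∧
        LeL (S.tt r x y) (S.t r u y) ∧ LeL (S.t r u y) (S.tt r x y) := by
  obtain ⟨m, hm, H⟩ := cross g xy n h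
  rwa [tt_eq xy hm]

theorem K3 {x y z : X} (hx : x ∈ S.D) (xy : x < y) (yz : y < z) :
    S.t r x z = S.t r x y * ltr r (S.c y) * S.tt r y z := by
  by_cases n : Com S.D S.bl y z
  · rw [tt_com yz n]; exact S.mul r x y z xy yz (Or.inl hx) n (Or.inl hx)
  by_cases h : ∃ d ∈ S.D, y < d ∧ d < z
  · obtain ⟨d, h1, h2, h3⟩ := h
    rw [tt_sep h1 h2 h3, mulD (xy.trans h2) h3 (by tauto), mulD xy h2 (by tauto)]
    simp only [mul_assoc]
  obtain ⟨u0, v0, g⟩ := S.good r y fun k => n (Or.inl k)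
  have g' := g.move (fun k => n (Or.inl k)) (fun k => n (Or.inr (Or.inl k))) yz h
  have key : ∀ u ∈ S.D, u0 ≤ u → u < y →
      S.t r u z = S.t r u y * ltr r (S.c y) * S.tt r y z := by
    intro u hu a b
    obtain ⟨-, p2, p3, -⟩ := tt_cross g yz n h u hu v0 g.hv a b g'.xv le_rfl
    refine (htriv ((F4 g' hu a (b.trans yz)).trans ?_) (LeL.trans ⟨_, rfl⟩ p3)).symm
    rw [mulD b g.xv (Or.inr (Or.inl ⟨hu, g.hv⟩))]
    exact p2.left _
  rcases le_or_gt u0 x with k | k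
  · exact key x hx k xy
  · rw [mulD k g'.ux (Or.inl ⟨hx, g.hu⟩), mulD k g.ux (Or.inl ⟨hx, g.hu⟩), key u0 g.hu le_rfl g.ux]
    simp only [mul_assoc]

theorem K3' {x y z : X} (hz : z ∈ S.D) (xy : x < y) (yz : y < z) :
    S.t r x z = S.tt r x y * ltr r (S.c y) * S.t r y z := by
  by_cases n : Com S.D S.bl x y
  · rw [tt_com xy n]; exact S.mul r x y z xy yz n (Or.inr (Or.inl hz)) (Or.inr (Or.inl hz))
  by_cases h : ∃ d ∈ S.D, x < d ∧ d < y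
  · obtain ⟨d, h1, h2, h3⟩ := h
    rw [tt_sep h1 h2 h3, mulD h2 (h3.trans yz) (by tauto), mulD h3 yz (by tauto)]
    simp only [mul_assoc]
  obtain ⟨u0, v0, g⟩ := S.good r x fun k => n (Or.inl k)
  have g' := g.move (fun k => n (Or.inl k)) (fun k => n (Or.inr (Or.inl k))) xy h
  have key : ∀ v ∈ S.D, y < v → v ≤ v0 →
      S.t r x v = S.tt r x y * ltr r (S.c y) * S.t r y v := by
    intro v hv b a
    obtain ⟨p1, -, -, p4⟩ := tt_cross g xy n h u0 g.hu v hv le_rfl g.ux b a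
    refine htriv (LeR.trans ⟨_, by rw [mul_assoc]⟩ p1) ((F5 g hv (xy.trans b) a).trans ?_)
    rw [mulD g'.ux b (Or.inr (Or.inl ⟨g.hu, hv⟩)), mul_assoc, mul_assoc]
    exact p4.right _
  rcases le_or_gt z v0 with k | k
  · exact key z hz yz k
  · rw [mulD g.xv k (Or.inr (Or.inr ⟨g.hv, hz⟩)), mulD g'.xv k (Or.inr (Or.inr ⟨g.hv, hz⟩)),
      key v0 g.hv g'.xv le_rfl]
    simp only [mul_assoc]

theorem tt_mul (r : ℕ) (x y z : X) (xy : x < y) (yz : y < z) :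
    S.tt r x z = S.tt r x y * ltr r (S.c y) * S.tt r y z := by
  have xz := xy.trans yz
  by_cases hx : x ∈ S.D
  · rw [tt_l xz hx, tt_l xy hx, K3 hx xy yz]
  by_cases hz : z ∈ S.D
  · rw [tt_r xz hz, tt_r yz hz, K3' hz xy yz]
  by_cases hy : y ∈ S.D
  · rw [tt_sep hy xy yz, tt_r xy hy, tt_l yz hy]
  by_cases h : ∃ d ∈ S.D, x < d ∧ d < y
  · obtain ⟨d, h1, h2, h3⟩ := h
    rw [tt_sep h1 h2 h3, tt_sep h1 h2 (h3.trans yz), K3 h1 h3 yz]
    simp only [mul_assoc]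
  by_cases h' : ∃ d ∈ S.D, y < d ∧ d < z
  · obtain ⟨d, h1, h2, h3⟩ := h'
    rw [tt_sep h1 h2 h3, tt_sep h1 (xy.trans h2) h3, K3' h1 xy h2]
    simp only [mul_assoc]
  have h'' : ¬ ∃ d ∈ S.D, x < d ∧ d < z := by
    rintro ⟨d, h1, h2, h3⟩
    rcases lt_trichotomy d y with k | rfl | k
    exacts [h ⟨d, h1, h2, k⟩, hy h1, h' ⟨d, h1, k, h3⟩]
  by_cases n : Com S.D S.bl x z
  · have e : S.bl x = S.bl z := by unfold Com at n; tauto
    have e' := (S.conv x z y hx hz e xy yz).2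
    have n1 : Com S.D S.bl x y := Or.inr (Or.inr e'.symm)
    have n2 : Com S.D S.bl y z := Or.inr (Or.inr (e'.trans e))
    rw [tt_com xz n, tt_com xy n1, tt_com yz n2, S.mul r x y z xy yz n1 n2 n]
  obtain ⟨u0, v0, g⟩ := S.good r x hx
  have gy := g.move hx hy xy h
  have gz := gy.move hy hz yz h'
  obtain ⟨p1, -, p3, -⟩ := tt_cross g xz n h'' u0 g.hu v0 g.hv le_rfl g.ux gz.xv le_rfl
  by_cases n2 : Com S.D S.bl y z
  · have n1 : ¬ Com S.D S.bl x y := by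
      intro n1
      have e1 : S.bl x = S.bl y := by unfold Com at n1; tauto
      have e2 : S.bl y = S.bl z := by unfold Com at n2; tauto
      exact n (Or.inr (Or.inr (e1.trans e2)))
    obtain ⟨-, -, q3, -⟩ := tt_cross g xy n1 h u0 g.hu v0 g.hv le_rfl g.ux gy.xv le_rfl
    have e : S.tt r x z * (ltr r (S.c z) * S.t r z v0) = S.t r x v0 := by
      rw [K3' g.hv xz gz.xv, mul_assoc]
    refine cancelR (k := ltr r (S.c z) * S.t r z v0) p3 ?_ ?_ ?_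
    · rw [K3 g.hu gy.ux yz, mul_assoc, mul_assoc]
      exact q3.right _
    · rw [e, K3' g.hv xy gy.xv, K3' g.hv yz gz.xv]; simp only [mul_assoc]
    · rw [e]; exact (F1 gz g.hu le_rfl gz.ux).trans (jL g).J
  · obtain ⟨q1, -, -, -⟩ := tt_cross gy yz n2 h' u0 g.hu v0 g.hv le_rfl gy.ux gz.xv le_rfl
    refine cancelL (k := S.t r u0 x * ltr r (S.c x)) p1 ?_ ?_ ?_
    · rw [K3' g.hv xy gy.xv]
      exact q1.left _
    · rw [← K3 g.hu g.ux xz, K3 g.hu gy.ux yz, K3 g.hu g.ux xy]; simp only [mul_assoc]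
    · rw [← K3 g.hu g.ux xz]; exact (F2 g g.hv g.xv le_rfl).trans (jR gz).J

theorem tt_proj (r : ℕ) (x y : X) (xy : x < y) : pr (S.tt (r + 1) x y) = S.tt r x y := by
  refine (tt_eq xy ?_).symm
  rcases tt_spec (S := S) (r + 1) xy with ⟨a, e⟩ | ⟨a, d, hd, d1, d2, e⟩ |
    ⟨a, b, u0, hu, v0, hv, u1, v1, H⟩
  · exact Or.inl ⟨a, by rw [e, S.proj _ _ _ xy a]⟩
  · refine Or.inr (Or.inl ⟨a, d, hd, d1, d2, ?_⟩)
    rw [e, map_mul, map_mul, pr_ltr, S.proj _ _ _ d1 (Or.inr (Or.inl hd)),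
      S.proj _ _ _ d2 (Or.inl hd)]
  · refine Or.inr (Or.inr ⟨a, b, u0, hu, v0, hv, u1, v1, fun u hu v hv k1 k2 k3 k4 => ?_⟩)
    obtain ⟨p1, p2, p3, p4⟩ := H u hu v hv k1 k2 k3 k4
    rw [← S.proj _ _ _ (xy.trans k3) (Or.inr (Or.inl hv)), ← S.proj _ _ _ (k2.trans xy) (Or.inl hu)]
    exact ⟨p1.pr, p2.pr, p3.pr, p4.pr⟩

theorem tt_wit (r : ℕ) (x y : X) (a : M r) (c' : Bool) (b : M r) (xy : x < y)
    (hT : Tr (S.tt (r + 1) x y) a c' b) :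
    ∃ z, x < z ∧ z < y ∧ S.tt r x z = a ∧ S.c z = c' ∧ S.tt r z y = b := by
  by_cases n : Com S.D S.bl x y
  · rw [tt_com xy n] at hT
    obtain ⟨z, h1, h2, h3, h4, h5, h6, h7⟩ := S.wit r x y a c' b xy n hT
    exact ⟨z, h1, h2, by rw [tt_com h1 h3, h5], h6, by rw [tt_com h2 h4, h7]⟩
  by_cases h : ∃ d ∈ S.D, x < d ∧ d < y
  · obtain ⟨d, hd, d1, d2⟩ := h
    rw [tt_sep hd d1 d2, Tr_mul3, S.proj _ _ _ d1 (Or.inr (Or.inl hd)),
      S.proj _ _ _ d2 (Or.inl hd)] at hT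
    rcases hT with ⟨b', hT, rfl⟩ | ⟨rfl, rfl, rfl⟩ | ⟨a', hT, rfl⟩
    · obtain ⟨z, h1, h2, h3, -, h5, h6, h7⟩ := S.wit r x d a c' b' d1 (Or.inr (Or.inl hd)) hT
      exact ⟨z, h1, h2.trans d2, by rw [tt_com h1 h3, h5], h6, by rw [tt_sep hd h2 d2, h7]⟩
    · exact ⟨d, d1, d2, tt_r d1 hd, rfl, tt_l d2 hd⟩
    · obtain ⟨z, h1, h2, -, h4, h5, h6, h7⟩ := S.wit r d y a' c' b d2 (Or.inl hd) hT
      exact ⟨z, d1.trans h1, h2, by rw [tt_sep hd d1 h1, h5], h6, by rw [tt_com h2 h4, h7]⟩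
  have hx : x ∉ S.D := fun k => n (Or.inl k)
  have hy : y ∉ S.D := fun k => n (Or.inr (Or.inl k))
  have up : ∀ d ∈ S.D, x < d → y < d := fun d hd k =>
    lt_of_le_of_ne (not_lt.1 fun k' => h ⟨d, hd, k, k'⟩) fun e => hy (e ▸ hd)
  have dn : ∀ d ∈ S.D, d < y → d < x := fun d hd k =>
    lt_of_le_of_ne (not_lt.1 fun k' => h ⟨d, hd, k', k⟩) fun e => hx (e ▸ hd)
  obtain ⟨u0, v0, G⟩ := S.good (r + 1) x hx
  have g := G.down
  have gy := g.move hx hy xy h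
  have C1 := tt_cross G xy n h
  have C0 := tt_cross g xy n h u0 g.hu v0 g.hv le_rfl g.ux gy.xv le_rfl
  have e0 : S.tt r x y = a * ltr r c' * b := by rw [← tt_proj r x y xy, Tr_prod hT]
  have jT : LeJ (S.t r u0 v0) (S.tt r x y) := (jL g).J.trans C0.2.1.J
  by_cases hb : LeJ b (S.t r u0 v0)
  · -- the witness lies in the block of `x`
    have W : ∀ v ∈ S.D, x < v → v ≤ v0 → ∃ k : M r, Tr (S.t (r + 1) x v) a c' (b * k) := by
      intro v hv k1 k2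
      obtain ⟨k, e⟩ := (C1 u0 g.hu v hv le_rfl g.ux (up v hv k1) k2).2.1
      exact ⟨pr k, by rw [e, Tr_mul]; exact Or.inl ⟨b, hT, rfl⟩⟩
    obtain ⟨k0, T0⟩ := W v0 g.hv g.xv le_rfl
    have e1 : S.t r x v0 = a * ltr r c' * (b * k0) := by
      rw [← S.proj _ _ _ g.xv (Or.inr (Or.inl g.hv)), Tr_prod T0]
    obtain ⟨w, w1, w2, w3, w4, w5, w6, w7⟩ := S.least r x v0 a c' (b * k0) hx g.hv g.xv T0 (by
      intro v hv k1 k2
      obtain ⟨k, T1⟩ := W v hv k1 k2.le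
      obtain ⟨z, z1, z2, z3, -, z5, z6, z7⟩ := S.wit r x v a c' _ k1 (Or.inr (Or.inl hv)) T1
      refine ⟨z, z1, z2, z3, z5, z6, ?_⟩
      have e2 : S.t r x v0 = a * ltr r c' * S.t r z v0 := by
        rw [S.mul r x z v0 z1 (z2.trans k2) z3 (Or.inr (Or.inl g.hv)) (Or.inr (Or.inl g.hv)), z5, z6]
      refine cancelL (m := b) (k := a * ltr r c') ?_ ⟨_, rfl⟩ (e2.symm.trans e1) ?_
      · rw [mulD z2 k2 (Or.inr (Or.inr ⟨hv, g.hv⟩)), z7]
        exact ⟨_, by simp only [mul_assoc]; rfl⟩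
      · rw [← e2]; exact hb.trans (jL g).J)
    have nw : ¬ Com S.D S.bl w y := by
      rintro (k | k | k)
      exacts [w1 k, hy k, n (Or.inr (Or.inr (w2.symm.trans k)))]
    have wy : w < y := by
      rcases lt_trichotomy w y with k | rfl | k
      · exact k
      · exact absurd (Or.inr (Or.inr rfl)) nw
      · exact absurd (Or.inr (Or.inr (S.conv x w y hx w1 w2.symm xy k).2.symm)) n
    have xw : Com S.D S.bl x w := Or.inr (Or.inr w2.symm)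
    have hw1 : ¬ ∃ d ∈ S.D, x < d ∧ d < w := fun ⟨d, k1, k2, k3⟩ => h ⟨d, k1, k2, k3.trans wy⟩
    have hw2 : ¬ ∃ d ∈ S.D, w < d ∧ d < y := fun ⟨d, k1, k2, k3⟩ => h ⟨d, k1, w3.trans k2, k3⟩
    have gw := g.move hx w1 w3 hw1
    refine ⟨w, w3, wy, by rw [tt_com w3 xw, w5], w6, ?_⟩
    have e3 : S.tt r x y = a * ltr r c' * S.tt r w y := by
      rw [tt_mul r x w y w3 wy, tt_com w3 xw, w5, w6]
    refine cancelL (m := b) (k := a * ltr r c') ?_ (LeR.refl _) (e3.symm.trans e0) ?_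
    · refine (tt_cross gw wy nw hw2 u0 g.hu v0 g.hv le_rfl gw.ux gy.xv le_rfl).1.trans ?_
      rw [w7]; exact ⟨_, rfl⟩
    · rw [← e3]; exact hb.trans jT
  · -- the witness lies in the block of `y`
    have ha : LeJ a (S.t r u0 v0) := by
      obtain ⟨v', v1, v2, v3, v4⟩ := G.hi v0 g.hv g.xv le_rfl
      obtain ⟨k, e⟩ := (C1 u0 g.hu v0 g.hv le_rfl g.ux gy.xv le_rfl).1
      rw [e, mulD v2 v3 (Or.inr (Or.inr ⟨v1, g.hv⟩)), mul_assoc, mul_assoc, Tr_mul] at hT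
      rcases hT with ⟨b', -, rfl⟩ | ⟨a', -, rfl⟩
      · refine absurd ?_ hb
        have := v4.pr
        rw [S.proj _ _ _ (g.ux.trans g.xv) (Or.inl g.hu)] at this
        refine LeJ.trans ⟨b' * ltr r (S.c v'), pr k, ?_⟩ this
        simp only [map_mul, pr_ltr, mul_assoc]
      · rw [S.proj _ _ _ v2 (Or.inr (Or.inl v1))]
        exact LeJ.trans ⟨1, a', by simp⟩ (F2 g v1 v2 v3.le)
    obtain ⟨k, e⟩ := (C1 u0 g.hu v0 g.hv le_rfl g.ux gy.xv le_rfl).2.2.2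
    have T1 : Tr (S.t (r + 1) u0 y) (pr k * a) c' b := by
      rw [e, Tr_mul]; exact Or.inr ⟨a, hT, rfl⟩
    obtain ⟨w, w1, w2, -, w4, w5, w6, w7⟩ := S.wit r u0 y _ c' b gy.ux (Or.inl g.hu) T1
    have low : ∀ d ∈ S.D, d < y → d < w := by
      intro d hd k1
      by_contra k2
      apply hb
      rw [← w7]
      refine LeJ.trans ?_ (F1 gy hd (w1.le.trans (not_lt.1 k2)) k1)
      rcases (not_lt.1 k2).lt_or_eq with k3 | rfl
      · exact ⟨_, 1, by rw [S.mul r w d y k3 k1 (Or.inr (Or.inl hd)) (Or.inl hd) w4, mul_one]⟩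
      · exact LeJ.refl _
    have hw : w ∉ S.D := fun k => lt_irrefl _ (low w k w2)
    have bw : S.bl w = S.bl y := by unfold Com at w4; tauto
    have nw : ¬ Com S.D S.bl x w := by
      rintro (k | k | k)
      exacts [hx k, hw k, n (Or.inr (Or.inr (k.trans bw)))]
    have xw : x < w := by
      rcases lt_trichotomy x w with k | rfl | k
      · exact k
      · exact absurd (Or.inr (Or.inr rfl)) nw
      · exact absurd (Or.inr (Or.inr (S.conv w y x hw hy bw k xy).2)) nw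
    have hw1 : ¬ ∃ d ∈ S.D, x < d ∧ d < w := fun ⟨d, k1, k2, k3⟩ => h ⟨d, k1, k2, k3.trans w2⟩
    refine ⟨w, xw, w2, ?_, w6, by rw [tt_com w2 w4, w7]⟩
    have e3 : S.tt r x y = S.tt r x w * (ltr r c' * b) := by
      rw [tt_mul r x w y xw w2, tt_com w2 w4, w7, w6, mul_assoc]
    refine cancelR (m := a) (k := ltr r c' * b) ?_ (LeL.refl _)
      (e3.symm.trans (e0.trans (mul_assoc _ _ _))) ?_
    · refine (tt_cross g xw nw hw1 u0 g.hu v0 g.hv le_rfl g.ux (w2.trans gy.xv) le_rfl).2.2.1.trans ?_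
      rw [w5]; exact ⟨_, rfl⟩
    · rw [← e3]; exact ha.trans jT

/-- The amalgam is a typed order. -/
noncomputable def toTO (S : Pre X B) : TO X where
  c := S.c
  t := S.tt
  mul := tt_mul
  proj := tt_proj
  wit := tt_wit

end Pre

end Pool.Agent.H270Z.Ord
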