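import Mathlib
import Pool.Agent.H270Z.Ord.Amalg

/-! Skolem terms and their diagrams. -/

set_option autoImplicit false

open Filter Topology

namespace Pool.Agent.H270Z.Ord

inductive T : Type
  | star : T
  | bot : T
  | top : T
  | ref (k i : ℕ) : T
  | wit (a b : T) (r : ℕ) (u : List Bool) (c : Bool) (v : List Bool) : T
  deriving Countable

/-- Closed terms. -/
def Cl : T → Prop
  | .star => False
  | .wit a b _ _ _ _ => Cl a ∧ Cl b
  | _ => True

noncomputable def ev (N : ℕ) (f : ℕ → Bool) (x : ℕ) : T → ℕ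
  | .star => x
  | .bot => 0
  | .top => N + 1
  | .ref k i => i * (N / (k + 1) + 1)
  | .wit a b r u c v => sInf {z | ev N f x a < z ∧ z < ev N f x b ∧
      mk r (seg f (ev N f x a) z) = mk r u ∧ f z = c ∧ mk r (seg f z (ev N f x b)) = mk r v}

theorem ev_cl (N : ℕ) (f : ℕ → Bool) (x y : ℕ) : ∀ a, Cl a → ev N f x a = ev N f y a
  | .star, h => h.elim
  | .bot, _ => rfl
  | .top, _ => rfl
  | .ref _ _, _ => rfl
  | .wit a b _ _ _ _, h => by simp only [ev, ev_cl N f x y a h.1, ev_cl N f x y b h.2]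

instance (r : ℕ) : TopologicalSpace (M r) := ⊥
instance (r : ℕ) : DiscreteTopology (M r) := ⟨rfl⟩
instance (r : ℕ) : MeasurableSpace (M r) := ⊤
instance (r : ℕ) : DiscreteMeasurableSpace (M r) := ⟨fun _ => trivial⟩
instance : MeasurableSpace T := ⊤
instance : DiscreteMeasurableSpace T := ⟨fun _ => trivial⟩

/-- Diagrams. -/
abbrev Ω : Type := (T × T → Bool) × (T → Bool) × ((k : ℕ × T × T) → M k.1)

def lt (p : Ω) (a b : T) : Prop := p.1 (a, b) = true
def cl (p : Ω) (a : T) : Bool := p.2.1 a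
def ty (p : Ω) (r : ℕ) (a b : T) : M r := p.2.2 (r, a, b)

noncomputable def Ψ (N : ℕ) (f : ℕ → Bool) (x : ℕ) : Ω :=
  (fun k => decide (ev N f x k.1 < ev N f x k.2), fun a => f (ev N f x a),
    fun k => mk k.1 (seg f (ev N f x k.2.1) (ev N f x k.2.2)))

@[simp] theorem lt_Ψ {N : ℕ} {f : ℕ → Bool} {x : ℕ} {a b : T} :
    lt (Ψ N f x) a b ↔ ev N f x a < ev N f x b := by simp [lt, Ψ]

@[simp] theorem cl_Ψ {N : ℕ} {f : ℕ → Bool} {x : ℕ} {a : T} :
    cl (Ψ N f x) a = f (ev N f x a) := rfl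

@[simp] theorem ty_Ψ {N : ℕ} {f : ℕ → Bool} {x r : ℕ} {a b : T} :
    ty (Ψ N f x) r a b = mk r (seg f (ev N f x a) (ev N f x b)) := rfl

structure Ax (p : Ω) : Prop where
  irr : ∀ a, ¬ lt p a a
  tr : ∀ a b c, lt p a b → lt p b c → lt p a c
  co : ∀ a b c, lt p a b → lt p a c ∨ lt p c b
  cc : ∀ a b, ¬ lt p a b → ¬ lt p b a → cl p a = cl p b
  c1 : ∀ r a a' b, ¬ lt p a a' → ¬ lt p a' a → ty p r a b = ty p r a' b
  c2 : ∀ r a a' b, ¬ lt p a a' → ¬ lt p a' a → ty p r b a = ty p r b a'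
  mul : ∀ r a b c, lt p a b → lt p b c → ty p r a c = ty p r a b * ltr r (cl p b) * ty p r b c
  proj : ∀ r a b, pr (ty p (r + 1) a b) = ty p r a b
  wit : ∀ r a b u c v, lt p a b → Tr (ty p (r + 1) a b) (mk r u) c (mk r v) →
    lt p a (.wit a b r u c v) ∧ lt p (.wit a b r u c v) b ∧ ty p r a (.wit a b r u c v) = mk r u ∧
      cl p (.wit a b r u c v) = c ∧ ty p r (.wit a b r u c v) b = mk r v
  least : ∀ r a b u c v z, lt p a z → lt p z b → ty p r a z = mk r u → cl p z = c →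
    ty p r z b = mk r v → ¬ lt p z (.wit a b r u c v)
  bt : lt p .bot .top

theorem ax_Ψ (N : ℕ) (f : ℕ → Bool) (x : ℕ) : Ax (Ψ N f x) := by
  have e : ∀ a b, ¬ lt (Ψ N f x) a b → ¬ lt (Ψ N f x) b a → ev N f x a = ev N f x b := by
    intro a b h h'; simp only [lt_Ψ] at h h'; omega
  refine ⟨by simp, ?_, ?_, ?_, ?_, ?_, ?_, fun _ _ _ => rfl, ?_, ?_, by simp [ev]⟩
  · intro a b c; simp only [lt_Ψ]; omega
  · intro a b c; simp only [lt_Ψ]; omega
  · intro a b h h'; simp [e a b h h']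
  · intro r a a' b h h'; simp [e a a' h h']
  · intro r a a' b h h'; simp [e a a' h h']
  · intro r a b c h h'
    exact (wordTO f).mul r _ _ _ (lt_Ψ.1 h) (lt_Ψ.1 h')
  · intro r a b u c v h hT
    have := Nat.sInf_mem ((wordTO f).wit r _ _ _ _ _ (lt_Ψ.1 h) hT)
    simp only [lt_Ψ, ty_Ψ, cl_Ψ]
    exact this
  · intro r a b u c v z h1 h2 h3 h4 h5
    simp only [lt_Ψ, not_lt] at h1 h2 ⊢
    exact Nat.sInf_le ⟨h1, h2, h3, h4, h5⟩

/-- Two diagrams agree on a set of terms up to level `r`. -/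
structure Agree (s : Set T) (r : ℕ) (p q : Ω) : Prop where
  lt : ∀ a ∈ s, ∀ b ∈ s, lt p a b ↔ lt q a b
  cl : ∀ a ∈ s, cl p a = cl q a
  ty : ∀ a ∈ s, ∀ b ∈ s, ty p r a b = ty q r a b

theorem Agree.refl (s : Set T) (r : ℕ) (p : Ω) : Agree s r p p :=
  ⟨fun _ _ _ _ => Iff.rfl, fun _ _ => rfl, fun _ _ _ _ => rfl⟩

theorem Agree.symm {s : Set T} {r : ℕ} {p q : Ω} (h : Agree s r p q) : Agree s r q p :=
  ⟨fun a u b v => (h.lt a u b v).symm, fun a u => (h.cl a u).symm,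
    fun a u b v => (h.ty a u b v).symm⟩

theorem Agree.trans {s : Set T} {r : ℕ} {p q o : Ω} (h : Agree s r p q) (h' : Agree s r q o) :
    Agree s r p o :=
  ⟨fun a u b v => (h.lt a u b v).trans (h'.lt a u b v), fun a u => (h.cl a u).trans (h'.cl a u),
    fun a u b v => (h.ty a u b v).trans (h'.ty a u b v)⟩

theorem agree_nhds {s : Set T} (hs : s.Finite) (r : ℕ) (p : Ω) : ∀ᶠ q in 𝓝 p, Agree s r p q := by
  have key : ∀ {Z : Type} [TopologicalSpace Z] [DiscreteTopology Z] (g : Ω → Z), Continuous g →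
      ∀ᶠ q in 𝓝 p, g p = g q := fun {Z} _ _ g hg => by
    have := hg.tendsto p
    rw [nhds_discrete Z, tendsto_pure] at this
    exact this.mono fun _ h => h.symm
  have h1 : ∀ᶠ q in 𝓝 p, ∀ a ∈ s, ∀ b ∈ s, p.1 (a, b) = q.1 (a, b) :=
    (hs.eventually_all).2 fun a _ => (hs.eventually_all).2 fun b _ =>
      key (fun q => q.1 (a, b)) (by fun_prop)
  have h2 : ∀ᶠ q in 𝓝 p, ∀ a ∈ s, cl p a = cl q a :=
    (hs.eventually_all).2 fun a _ => key (fun q => q.2.1 a) (by fun_prop)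
  have h3 : ∀ᶠ q in 𝓝 p, ∀ a ∈ s, ∀ b ∈ s, ty p r a b = ty q r a b :=
    (hs.eventually_all).2 fun a _ => (hs.eventually_all).2 fun b _ =>
      key (fun q => q.2.2 (r, a, b)) (by fun_prop)
  filter_upwards [h1, h2, h3] with q a b c
  exact ⟨fun x u y v => by unfold Ord.lt; rw [a x u y v], b, c⟩

theorem isOpen_agree {s : Set T} (hs : s.Finite) (r : ℕ) (p : Ω) : IsOpen {q | Agree s r p q} :=
  isOpen_iff_mem_nhds.2 fun q hq => (agree_nhds hs r q).mono fun _ h => Agree.trans hq h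

theorem isClosed_agree {s : Set T} (hs : s.Finite) (r : ℕ) (p : Ω) :
    IsClosed {q | Agree s r p q} :=
  ⟨isOpen_iff_mem_nhds.2 fun q hq => (agree_nhds hs r q).mono fun _ h h' =>
    hq (Agree.trans h' h.symm)⟩

theorem isClosed_ax : IsClosed {p | Ax p} := by
  refine isClosed_iff_frequently.2 fun p hp => ?_
  have H : ∀ (s : List T) (r : ℕ), ∃ q, Ax q ∧ Agree {a | a ∈ s} r p q ∧
      Agree {a | a ∈ s} (r + 1) p q := fun s r =>
    (hp.and_eventually ((agree_nhds s.finite_toSet r p).and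
      (agree_nhds s.finite_toSet (r + 1) p))).exists
  refine ⟨fun a => ?_, fun a b c => ?_, fun a b c => ?_, fun a b => ?_, fun r a a' b => ?_,
    fun r a a' b => ?_, fun r a b c => ?_, fun r a b => ?_, fun r a b u c v => ?_,
    fun r a b u c v z => ?_, ?_⟩
  · obtain ⟨q, hq, h, h'⟩ := H [a] 0
    simp (disch := simp) only [h.lt]; exact hq.irr a
  · obtain ⟨q, hq, h, h'⟩ := H [a, b, c] 0
    simp (disch := simp) only [h.lt]; exact hq.tr a b c
  · obtain ⟨q, hq, h, h'⟩ := H [a, b, c] 0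
    simp (disch := simp) only [h.lt]; exact hq.co a b c
  · obtain ⟨q, hq, h, h'⟩ := H [a, b] 0
    simp (disch := simp) only [h.lt, h.cl]; exact hq.cc a b
  · obtain ⟨q, hq, h, h'⟩ := H [a, a', b] r
    simp (disch := simp) only [h.lt, h.ty]; exact hq.c1 r a a' b
  · obtain ⟨q, hq, h, h'⟩ := H [a, a', b] r
    simp (disch := simp) only [h.lt, h.ty]; exact hq.c2 r a a' b
  · obtain ⟨q, hq, h, h'⟩ := H [a, b, c] r
    simp (disch := simp) only [h.lt, h.ty, h.cl]; exact hq.mul r a b c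
  · obtain ⟨q, hq, h, h'⟩ := H [a, b] r
    simp (disch := simp) only [h.ty, h'.ty]; exact hq.proj r a b
  · obtain ⟨q, hq, h, h'⟩ := H [a, b, .wit a b r u c v] r
    simp (disch := simp) only [h.lt, h.ty, h.cl, h'.ty]; exact hq.wit r a b u c v
  · obtain ⟨q, hq, h, h'⟩ := H [a, b, z, .wit a b r u c v] r
    simp (disch := simp) only [h.lt, h.ty, h.cl]; exact hq.least r a b u c v z
  · obtain ⟨q, hq, h, h'⟩ := H [.bot, .top] 0
    simp (disch := simp) only [h.lt]; exact hq.bt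

end Pool.Agent.H270Z.Ord
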