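import Mathlib
import Pool.Agent.H270Z.Ord.Diag

/-! The Borel family of blocks over the closed terms. -/

set_option autoImplicit false

namespace Pool.Agent.H270Z.Ord

open Classical in
noncomputable def enc (a : T) : ℕ :=
  if a = .star then 0 else (exists_injective_nat T).choose a + 1

theorem enc_inj : Function.Injective enc := by
  intro a b h
  unfold enc at h
  by_cases h1 : a = .star <;> by_cases h2 : b = .star
  · rw [h1, h2]
  · rw [if_pos h1, if_neg h2] at h; omega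
  · rw [if_neg h1, if_pos h2] at h; omega
  · rw [if_neg h1, if_neg h2] at h
    exact (exists_injective_nat T).choose_spec (by omega)

theorem enc_star : enc .star = 0 := by simp [enc]

def AgC (p δ : Ω) : Prop := ∀ r, Agree {a | Cl a} r p δ

def GoodP (δ p : Ω) (r : ℕ) : Prop :=
  ∃ u0 v0, Cl u0 ∧ Cl v0 ∧ lt p u0 .star ∧ lt p .star v0 ∧
    (∀ u, Cl u → ¬ lt δ u u0 → lt p u .star →
      ∃ u', Cl u' ∧ lt δ u u' ∧ lt p u' .star ∧ LeJ (ty δ r u u') (ty δ r u0 v0)) ∧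
    (∀ v, Cl v → ¬ lt δ v0 v → lt p .star v →
      ∃ v', Cl v' ∧ lt δ v' v ∧ lt p .star v' ∧ LeJ (ty δ r v' v) (ty δ r u0 v0))

structure Nice (δ p : Ω) : Prop where
  ax : Ax p
  ag : AgC p δ
  ne : ∀ d, Cl d → lt p d .star ∨ lt p .star d
  good : ∀ r, GoodP δ p r
  bot : lt p .bot .star
  top : lt p .star .top

def InCut (p : Ω) (a : T) : Prop :=
  ∀ d, Cl d → (lt p d .star → lt p d a) ∧ (lt p .star d → lt p a d)

def Valid (δ : Ω) (z : Ω × T) : Prop :=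
  (z.1 = δ ∧ Cl z.2 ∧ ∀ a, Cl a → ¬ lt δ z.2 a → ¬ lt δ a z.2 → enc z.2 ≤ enc a) ∨
  (Nice δ z.1 ∧ InCut z.1 z.2 ∧ ∀ a, ¬ lt z.1 z.2 a → ¬ lt z.1 a z.2 → enc z.2 ≤ enc a)

noncomputable def rk : Ω → ℝ := MeasureTheory.embeddingReal Ω

theorem rk_emb : MeasurableEmbedding rk := MeasureTheory.measurableEmbedding_embeddingReal Ω

def LL (z z' : Ω × T) : Prop :=
  (∃ d, Cl d ∧ ¬ lt z.1 d z.2 ∧ ¬ lt z'.1 z'.2 d ∧ (lt z.1 z.2 d ∨ lt z'.1 d z'.2)) ∨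
  (¬ Cl z.2 ∧ ¬ Cl z'.2 ∧ (∀ d, Cl d → (lt z.1 d .star ↔ lt z'.1 d .star)) ∧
    (rk z.1 < rk z'.1 ∨ (z.1 = z'.1 ∧ lt z.1 z.2 z'.2)))

/-- The points of the amalgam. -/
structure XX (δ : Ω) (hδ : Ax δ) : Type where
  z : Ω × T
  v : Valid δ z

variable {δ : Ω} {hδ : Ax δ}

namespace Ax

variable {p : Ω} (h : Ax p)
include h

theorem asymm {a b : T} (k : lt p a b) : ¬ lt p b a := fun k' => h.irr a (h.tr _ _ _ k k')

theorem lt_le {a b c : T} (k : lt p a b) (k' : ¬ lt p c b) : lt p a c :=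
  (h.co a b c k).resolve_right k'

theorem le_lt {a b c : T} (k : ¬ lt p b a) (k' : lt p b c) : lt p a c :=
  (h.co b c a k').resolve_left k

theorem le_le {a b c : T} (k : ¬ lt p b a) (k' : ¬ lt p c b) : ¬ lt p c a := fun k'' =>
  (h.co c a b k'').elim k' k

theorem tr_mid (r : ℕ) {a b w : T} (k : lt p a w) (k' : lt p w b) :
    Tr (ty p (r + 1) a b) (ty p r a w) (cl p w) (ty p r w b) := by
  rw [h.mul _ a w b k k', Tr_mul3]
  exact Or.inr (Or.inl ⟨(h.proj _ _ _).symm, rfl, (h.proj _ _ _).symm⟩)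

theorem clwit {r : ℕ} {a b : T} {m m' : M r} {c : Bool} (ha : Cl a) (hb : Cl b) (k : lt p a b)
    (hT : Tr (ty p (r + 1) a b) m c m') :
    ∃ w, Cl w ∧ lt p a w ∧ lt p w b ∧ ty p r a w = m ∧ cl p w = c ∧ ty p r w b = m' := by
  obtain ⟨u, rfl⟩ := mk_surj m
  obtain ⟨v, rfl⟩ := mk_surj m'
  exact ⟨.wit a b r u c v, ⟨ha, hb⟩, h.wit r a b u c v k hT⟩

end Ax

theorem InCut.ncl {p : Ω} {a : T} (h : InCut p a) (n : Nice δ p) : ¬ Cl a := fun k =>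
  (n.ne a k).elim (fun j => n.ax.irr a ((h a k).1 j)) fun j => n.ax.irr a ((h a k).2 j)

theorem InCut.lo {p : Ω} {a d : T} (h : InCut p a) (n : Nice δ p) (hd : Cl d) :
    lt p d a ↔ lt p d .star :=
  ⟨fun k => (n.ne d hd).resolve_right fun j => n.ax.asymm k ((h d hd).2 j), (h d hd).1⟩

theorem InCut.hi {p : Ω} {a d : T} (h : InCut p a) (n : Nice δ p) (hd : Cl d) :
    lt p a d ↔ lt p .star d :=
  ⟨fun k => (n.ne d hd).resolve_left fun j => n.ax.asymm k ((h d hd).1 j), (h d hd).2⟩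

namespace XX

abbrev p (x : XX δ hδ) : Ω := x.z.1
abbrev a (x : XX δ hδ) : T := x.z.2

theorem ext' {x y : XX δ hδ} (h : x.p = y.p) (h' : x.a = y.a) : x = y := by
  cases x; cases y; congr; exact Prod.ext h h'

theorem ncl (x : XX δ hδ) (h : ¬ Cl x.a) : Nice δ x.p ∧ InCut x.p x.a := by
  rcases x.v with k | k
  exacts [absurd k.2.1 h, ⟨k.1, k.2.1⟩]

theorem clp (x : XX δ hδ) (h : Cl x.a) : x.p = δ := by
  rcases x.v with k | k
  exacts [k.1, absurd h (k.2.1.ncl k.1)]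

theorem ax (x : XX δ hδ) : Ax x.p := by
  rcases x.v with k | k
  exacts [by rw [show x.p = δ from k.1]; exact hδ, k.1.ax]

theorem ag (x : XX δ hδ) : AgC x.p δ := by
  rcases x.v with k | k
  exacts [by rw [show x.p = δ from k.1]; exact fun r => Agree.refl _ r _, k.1.ag]

/-- The point `x` lives in the diagram `s`. -/
def In (s : Ω) (x : XX δ hδ) : Prop := Cl x.a ∨ x.p = s

theorem lt_cl {s s' : Ω} (h : AgC s δ) (h' : AgC s' δ) {a b : T} (ha : Cl a) (hb : Cl b) :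
    lt s a b ↔ lt s' a b := ((h 0).lt a ha b hb).trans ((h' 0).lt a ha b hb).symm

theorem In.l {s : Ω} (h : AgC s δ) {x : XX δ hδ} (i : In s x) {d : T} (hd : Cl d) :
    lt x.p x.a d ↔ lt s x.a d := by
  rcases i with k | rfl
  exacts [lt_cl x.ag h k hd, Iff.rfl]

theorem In.r {s : Ω} (h : AgC s δ) {x : XX δ hδ} (i : In s x) {d : T} (hd : Cl d) :
    lt x.p d x.a ↔ lt s d x.a := by
  rcases i with k | rfl
  exacts [lt_cl x.ag h hd k, Iff.rfl]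

theorem LL_in {s : Ω} (hs : Ax s) (h : AgC s δ) {x y : XX δ hδ} (i : In s x) (j : In s y) :
    LL x.z y.z ↔ lt s x.a y.a := by
  constructor
  · rintro (⟨d, hd, h1, h2, h3⟩ | ⟨h1, h2, -, h3⟩)
    · rw [i.r h hd] at h1
      rw [j.l h hd] at h2
      rw [i.l h hd, j.r h hd] at h3
      exact h3.elim (fun k => hs.lt_le k h2) fun k => hs.le_lt h1 k
    · have e1 := i.resolve_left h1
      have e2 := j.resolve_left h2
      rcases h3 with k | k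
      · exact absurd k (by rw [show x.z.1 = s from e1, show y.z.1 = s from e2]; exact lt_irrefl _)
      · exact e1 ▸ k.2
  · intro k
    by_cases h1 : Cl x.a
    · exact Or.inl ⟨x.a, h1, x.ax.irr _, by rw [j.l h h1]; exact hs.asymm k,
        Or.inr ((j.r h h1).2 k)⟩
    by_cases h2 : Cl y.a
    · exact Or.inl ⟨y.a, h2, by rw [i.r h h2]; exact hs.asymm k, y.ax.irr _,
        Or.inl ((i.l h h2).2 k)⟩
    have e1 := i.resolve_left h1
    have e2 := j.resolve_left h2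
    refine Or.inr ⟨h1, h2, fun d _ => ?_, Or.inr ⟨e1.trans e2.symm, ?_⟩⟩
    · rw [show x.z.1 = s from e1, show y.z.1 = s from e2]
    · rw [show x.z.1 = s from e1]; exact k

theorem LL_trans {x y z : XX δ hδ} (h : LL x.z y.z) (h' : LL y.z z.z) : LL x.z z.z := by
  rcases h with ⟨d, hd, h1, h2, h3⟩ | ⟨h1, h2, h3, h4⟩ <;>
    rcases h' with ⟨e, he, k1, k2, k3⟩ | ⟨k1, k2, k3, k4⟩
  · have de : ¬ lt z.p e d := by rw [lt_cl z.ag y.ag he hd]; exact y.ax.le_le h2 k1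
    refine Or.inl ⟨d, hd, h1, z.ax.le_le de k2, ?_⟩
    rcases h3 with j | j
    · exact Or.inl j
    · exact Or.inr (z.ax.lt_le ((lt_cl y.ag z.ag hd he).1 (y.ax.lt_le j k1)) k2)
  · obtain ⟨n, c⟩ := y.ncl k1
    obtain ⟨n', c'⟩ := z.ncl k2
    have : lt z.p d z.a := (c'.lo n' hd).2 ((k3 d hd).1
      ((n.ne d hd).resolve_right fun j => h2 ((c.hi n hd).2 j)))
    exact Or.inl ⟨d, hd, h1, z.ax.asymm this, Or.inr this⟩
  · obtain ⟨n, c⟩ := x.ncl h1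
    obtain ⟨n', c'⟩ := y.ncl h2
    have : lt x.p x.a e := (c.hi n he).2 ((n.ne e he).resolve_left fun j =>
      k1 ((c'.lo n' he).2 ((h3 e he).1 j)))
    exact Or.inl ⟨e, he, x.ax.asymm this, k2, Or.inl this⟩
  · refine Or.inr ⟨h1, k2, fun d hd => (h3 d hd).trans (k3 d hd), ?_⟩
    rcases h4 with j | ⟨j, j'⟩ <;> rcases k4 with l | ⟨l, l'⟩
    · exact Or.inl (j.trans l)
    · exact Or.inl (l ▸ j)
    · exact Or.inl (j ▸ l)
    · exact Or.inr ⟨j.trans l, x.ax.tr _ _ _ j' (by rw [show x.p = y.p from j]; exact l')⟩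

theorem eq_in {s : Ω} (h : AgC s δ) {x y : XX δ hδ} (i : In s x) (j : In s y)
    (k : ¬ lt s x.a y.a) (k' : ¬ lt s y.a x.a) : x = y := by
  have hδ' : AgC δ δ := fun r => Agree.refl _ r _
  rcases x.v with ⟨u1, u2, u3⟩ | ⟨u1, u2, u3⟩ <;> rcases y.v with ⟨v1, v2, v3⟩ | ⟨v1, v2, v3⟩
  · rw [lt_cl h hδ' u2 v2] at k
    rw [lt_cl h hδ' v2 u2] at k'
    exact ext' (u1.trans v1.symm) (enc_inj (le_antisymm (u3 _ v2 k k') (v3 _ u2 k' k)))
  · obtain rfl := j.resolve_left (v2.ncl v1)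
    exact ((v1.ne _ u2).elim (fun l => k ((v2 _ u2).1 l)) fun l => k' ((v2 _ u2).2 l)).elim
  · obtain rfl := i.resolve_left (u2.ncl u1)
    exact ((u1.ne _ v2).elim (fun l => k' ((u2 _ v2).1 l)) fun l => k ((u2 _ v2).2 l)).elim
  · have e1 := i.resolve_left (u2.ncl u1)
    have e2 := j.resolve_left (v2.ncl v1)
    rw [show x.z.1 = s from e1] at u3
    rw [show y.z.1 = s from e2] at v3
    exact ext' (e1.trans e2.symm) (enc_inj (le_antisymm (u3 _ k k') (v3 _ k' k)))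

theorem LL_tri (x y : XX δ hδ) : LL x.z y.z ∨ x = y ∨ LL y.z x.z := by
  have com : ∀ s, Ax s → AgC s δ → In s x → In s y → LL x.z y.z ∨ x = y ∨ LL y.z x.z := by
    intro s hs h i j
    rw [LL_in hs h i j, LL_in hs h j i]
    by_contra k
    push Not at k
    exact k.2.1 (eq_in h i j k.1 k.2.2)
  by_cases h1 : Cl x.a
  · exact com _ y.ax y.ag (Or.inl h1) (Or.inr rfl)
  by_cases h2 : Cl y.a
  · exact com _ x.ax x.ag (Or.inr rfl) (Or.inl h2)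
  by_cases h3 : x.p = y.p
  · exact com _ x.ax x.ag (Or.inr rfl) (Or.inr h3.symm)
  obtain ⟨n, c⟩ := x.ncl h1
  obtain ⟨n', c'⟩ := y.ncl h2
  by_cases h4 : ∀ d, Cl d → (lt x.p d .star ↔ lt y.p d .star)
  · rcases lt_or_gt_of_ne (rk_emb.injective.ne h3) with k | k
    · exact Or.inl (Or.inr ⟨h1, h2, h4, Or.inl k⟩)
    · exact Or.inr (Or.inr (Or.inr ⟨h2, h1, fun d hd => (h4 d hd).symm, Or.inl k⟩))
  · push Not at h4
    obtain ⟨d, hd, ⟨k, k'⟩ | ⟨k, k'⟩⟩ := h4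
    · have := (c.lo n hd).2 k
      exact Or.inr (Or.inr (Or.inl ⟨d, hd, fun j => k' ((c'.lo n' hd).1 j), x.ax.asymm this,
        Or.inr this⟩))
    · have := (c'.lo n' hd).2 k'
      exact Or.inl (Or.inl ⟨d, hd, fun j => k ((c.lo n hd).1 j), y.ax.asymm this, Or.inr this⟩)

instance : IsStrictTotalOrder (XX δ hδ) (fun x y => LL x.z y.z) where
  trichotomous x y h h' := ((LL_tri x y).resolve_left h).resolve_right h'
  irrefl x h := x.ax.irr _ ((LL_in x.ax x.ag (Or.inr rfl) (Or.inr rfl)).1 h)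
  trans _ _ _ := LL_trans

open Classical in
noncomputable instance : LinearOrder (XX δ hδ) := linearOrderOfSTO (fun x y => LL x.z y.z)

theorem lt_def {x y : XX δ hδ} : x < y ↔ LL x.z y.z := Iff.rfl

theorem lt_in {s : Ω} (hs : Ax s) (h : AgC s δ) {x y : XX δ hδ} (i : In s x) (j : In s y) :
    x < y ↔ lt s x.a y.a := LL_in hs h i j

def DD : Set (XX δ hδ) := {x | Cl x.a}

def c0 (x : XX δ hδ) : Bool := cl x.p x.a

open Classical in
noncomputable def t0 (r : ℕ) (x y : XX δ hδ) : M r := ty (if Cl x.a then y.p else x.p) r x.a y.a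

theorem c_in {s : Ω} (h : AgC s δ) {x : XX δ hδ} (i : In s x) : c0 x = cl s x.a := by
  rcases i with k | rfl
  exacts [((x.ag 0).cl _ k).trans ((h 0).cl _ k).symm, rfl]

theorem t_in {s : Ω} (h : AgC s δ) {x y : XX δ hδ} (i : In s x) (j : In s y) (r : ℕ) :
    t0 r x y = ty s r x.a y.a := by
  unfold t0
  split_ifs with k
  · rcases j with l | rfl
    exacts [((y.ag r).ty _ k _ l).trans ((h r).ty _ k _ l).symm, rfl]
  · rw [i.resolve_left k]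

theorem com_in {s : Ω} {x y : XX δ hδ} (i : In s x) (j : In s y) : Com DD p x y := by
  rcases i with k | k
  · exact Or.inl k
  rcases j with l | l
  exacts [Or.inr (Or.inl l), Or.inr (Or.inr (k.trans l.symm))]

theorem common {x y z : XX δ hδ} (h1 : Com DD p x y) (h2 : Com DD p y z) (h3 : Com DD p x z) :
    ∃ s, Ax s ∧ AgC s δ ∧ In s x ∧ In s y ∧ In s z := by
  unfold Com DD at h1 h2 h3
  simp only [Set.mem_ofPred_eq] at h1 h2 h3
  by_cases k : Cl x.a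
  · by_cases l : Cl y.a
    · exact ⟨_, z.ax, z.ag, Or.inl k, Or.inl l, Or.inr rfl⟩
    · exact ⟨_, y.ax, y.ag, Or.inl k, Or.inr rfl, (h2.resolve_left l).imp id Eq.symm⟩
  · exact ⟨_, x.ax, x.ag, Or.inr rfl, (h1.resolve_left k).imp id Eq.symm,
      (h3.resolve_left k).imp id Eq.symm⟩

theorem repCl {a : T} (ha : Cl a) :
    ∃ x : XX δ hδ, Cl x.a ∧ ¬ lt δ x.a a ∧ ¬ lt δ a x.a := by
  obtain ⟨b, ⟨h1, h2, h3⟩, hm⟩ := (measure enc).wf.has_min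
    {b | Cl b ∧ ¬ lt δ b a ∧ ¬ lt δ a b} ⟨a, ha, hδ.irr a, hδ.irr a⟩
  exact ⟨⟨(δ, b), Or.inl ⟨rfl, h1, fun e he k k' =>
    not_lt.1 (hm e ⟨he, hδ.le_le h2 k', hδ.le_le k h3⟩)⟩⟩, h1, h2, h3⟩

theorem repCut {s : Ω} (n : Nice δ s) {a : T} (ha : InCut s a) :
    ∃ x : XX δ hδ, x.p = s ∧ ¬ Cl x.a ∧ ¬ lt s x.a a ∧ ¬ lt s a x.a := by
  obtain ⟨b, ⟨h2, h3⟩, hm⟩ := (measure enc).wf.has_min
    {b | ¬ lt s b a ∧ ¬ lt s a b} ⟨a, n.ax.irr a, n.ax.irr a⟩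
  have c : InCut s b := fun d hd =>
    ⟨fun k => n.ax.lt_le ((ha d hd).1 k) h2, fun k => n.ax.le_lt h3 ((ha d hd).2 k)⟩
  exact ⟨⟨(s, b), Or.inr ⟨n, c, fun e k k' =>
    not_lt.1 (hm e ⟨n.ax.le_le h2 k', n.ax.le_le k h3⟩)⟩⟩, rfl, c.ncl n, h2, h3⟩

theorem repCl' {s : Ω} (h : AgC s δ) {a : T} (ha : Cl a) :
    ∃ x : XX δ hδ, Cl x.a ∧ ¬ lt s x.a a ∧ ¬ lt s a x.a := by
  obtain ⟨x, h1, h2, h3⟩ := repCl (hδ := hδ) ha
  exact ⟨x, h1, by rwa [(h 0).lt _ h1 _ ha], by rwa [(h 0).lt _ ha _ h1]⟩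

theorem realize {s : Ω} (hs : Ax s) (h : AgC s δ) {x y z : XX δ hδ} (i : In s x) (j : In s y)
    (k : In s z) {w : T} (e : ¬ lt s z.a w) (e' : ¬ lt s w z.a) (h1 : lt s x.a w)
    (h2 : lt s w y.a) (r : ℕ) :
    x < z ∧ z < y ∧ t0 r x z = ty s r x.a w ∧ c0 z = cl s w ∧ t0 r z y = ty s r w y.a :=
  ⟨(lt_in hs h i k).2 (hs.lt_le h1 e), (lt_in hs h k j).2 (hs.le_lt e' h2),
    (t_in h i k r).trans (hs.c2 _ _ _ _ e e'), (c_in h k).trans (hs.cc _ _ e e'),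
    (t_in h k j r).trans (hs.c1 _ _ _ _ e e')⟩

theorem replace {s : Ω} (hs : Ax s) {a b w : T} (r : ℕ) (h1 : lt s a w) (h2 : lt s w b)
    (ha : Cl a ∨ ∃ d, Cl d ∧ lt s a d ∧ ¬ lt s w d) (hb : Cl b ∨ ∃ d, Cl d ∧ lt s d b ∧ ¬ lt s d w) :
    ∃ w', Cl w' ∧ lt s a w' ∧ lt s w' b ∧ ty s r a w' = ty s r a w ∧ cl s w' = cl s w ∧
      ty s r w' b = ty s r w b := by
  by_cases e : ∃ d, Cl d ∧ ¬ lt s w d ∧ ¬ lt s d w
  · obtain ⟨d, hd, e1, e2⟩ := e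
    exact ⟨d, hd, hs.lt_le h1 e2, hs.le_lt e1 h2, hs.c2 _ _ _ _ e2 e1, hs.cc _ _ e2 e1,
      hs.c1 _ _ _ _ e2 e1⟩
  push Not at e
  obtain ⟨a', a1, a2, a3⟩ : ∃ a', Cl a' ∧ lt s a' w ∧ (a = a' ∨ lt s a a') := by
    rcases ha with k | ⟨d, k1, k2, k3⟩
    exacts [⟨a, k, h1, Or.inl rfl⟩, ⟨d, k1, e d k1 k3, Or.inr k2⟩]
  obtain ⟨b', b1, b2, b3⟩ : ∃ b', Cl b' ∧ lt s w b' ∧ (b = b' ∨ lt s b' b) := by
    rcases hb with k | ⟨d, k1, k2, k3⟩
    exacts [⟨b, k, h2, Or.inl rfl⟩, ⟨d, k1, by_contra fun k => k3 (e d k1 k), Or.inr k2⟩]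
  obtain ⟨w', w1, w2, w3, w4, w5, w6⟩ := hs.clwit a1 b1 (hs.tr _ _ _ a2 b2) (hs.tr_mid r a2 b2)
  refine ⟨w', w1, ?_, ?_, ?_, w5, ?_⟩
  · rcases a3 with rfl | k
    exacts [w2, hs.tr _ _ _ k w2]
  · rcases b3 with rfl | k
    exacts [w3, hs.tr _ _ _ w3 k]
  · rcases a3 with rfl | k
    exacts [w4, by rw [hs.mul r _ _ _ k w2, hs.mul r _ _ _ k a2, w4]]
  · rcases b3 with rfl | k
    exacts [w6, by rw [hs.mul r _ _ _ w3 k, hs.mul r _ _ _ b2 k, w6]]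

theorem wit0 (r : ℕ) (x y : XX δ hδ) (m : M r) (c' : Bool) (m' : M r) (xy : x < y)
    (n : Com DD p x y) (hT : Tr (t0 (r + 1) x y) m c' m') :
    ∃ z, x < z ∧ z < y ∧ Com DD p x z ∧ Com DD p z y ∧ t0 r x z = m ∧ c0 z = c' ∧ t0 r z y = m' := by
  obtain ⟨s, hs, h, i, j, hn⟩ : ∃ s, Ax s ∧ AgC s δ ∧ In s x ∧ In s y ∧
      ((Cl x.a ∧ Cl y.a) ∨ Nice δ s) := by
    by_cases k : Cl x.a
    · by_cases l : Cl y.a
      · exact ⟨_, x.ax, x.ag, Or.inl k, Or.inl l, Or.inl ⟨k, l⟩⟩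
      · exact ⟨_, y.ax, y.ag, Or.inl k, Or.inr rfl, Or.inr (y.ncl l).1⟩
    · exact ⟨_, x.ax, x.ag, Or.inr rfl, (n.resolve_left k).imp id Eq.symm, Or.inr (x.ncl k).1⟩
  rw [t_in h i j] at hT
  obtain ⟨u, rfl⟩ := mk_surj m
  obtain ⟨v, rfl⟩ := mk_surj m'
  obtain ⟨w1, w2, w3, w4, w5⟩ := hs.wit r _ _ u c' v ((lt_in hs h i j).1 xy) hT
  generalize T.wit x.a y.a r u c' v = w at w1 w2 w3 w4 w5
  rw [← w3, ← w4, ← w5]
  have fin : ∀ (z : XX δ hδ) (w' : T), In s z → ¬ lt s z.a w' → ¬ lt s w' z.a → lt s x.a w' →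
      lt s w' y.a → ty s r x.a w' = ty s r x.a w → cl s w' = cl s w →
      ty s r w' y.a = ty s r w y.a → ∃ z, x < z ∧ z < y ∧ Com DD p x z ∧ Com DD p z y ∧
        t0 r x z = ty s r x.a w ∧ c0 z = cl s w ∧ t0 r z y = ty s r w y.a := by
    intro z w' k e e' a1 a2 a3 a4 a5
    obtain ⟨b1, b2, b3, b4, b5⟩ := realize hs h i j k e e' a1 a2 r
    exact ⟨z, b1, b2, com_in i k, com_in k j, b3.trans a3, b4.trans a4, b5.trans a5⟩
  have fin2 : (Cl x.a ∨ ∃ d, Cl d ∧ lt s x.a d ∧ ¬ lt s w d) →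
      (Cl y.a ∨ ∃ d, Cl d ∧ lt s d y.a ∧ ¬ lt s d w) → ∃ z, x < z ∧ z < y ∧ Com DD p x z ∧
        Com DD p z y ∧ t0 r x z = ty s r x.a w ∧ c0 z = cl s w ∧ t0 r z y = ty s r w y.a := by
    intro ha hb
    obtain ⟨w', a0, a1, a2, a3, a4, a5⟩ := replace hs r w1 w2 ha hb
    obtain ⟨z, z1, z2, z3⟩ := repCl' (hδ := hδ) h a0
    exact fin z w' (Or.inl z1) z2 z3 a1 a2 a3 a4 a5
  rcases hn with ⟨k, l⟩ | hn
  · exact fin2 (Or.inl k) (Or.inl l)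
  by_cases c : InCut s w
  · obtain ⟨z, z1, -, z2, z3⟩ := repCut (hδ := hδ) hn c
    exact fin z w (Or.inr z1) z2 z3 w1 w2 rfl rfl rfl
  have cx : ¬ Cl x.a → InCut s x.a := fun k => i.resolve_left k ▸ (x.ncl k).2
  have cy : ¬ Cl y.a → InCut s y.a := fun k => j.resolve_left k ▸ (y.ncl k).2
  unfold InCut at c
  push Not at c
  obtain ⟨d, hd, c⟩ := c
  by_cases c1 : lt s d .star → lt s d w
  · obtain ⟨c2, c3⟩ := c c1
    refine fin2 ?_ (Or.inl (by_contra fun k => c3 (hs.tr _ _ _ w2 ((cy k d hd).2 c2))))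
    by_cases k : Cl x.a
    exacts [Or.inl k, Or.inr ⟨d, hd, (cx k d hd).2 c2, c3⟩]
  · push Not at c1
    obtain ⟨c2, c3⟩ := c1
    refine fin2 (Or.inl (by_contra fun k => c3 (hs.tr _ _ _ ((cx k d hd).1 c2) w1))) ?_
    by_cases k : Cl y.a
    exacts [Or.inl k, Or.inr ⟨d, hd, (cy k d hd).1 c2, c3⟩]

theorem sepD {x y : XX δ hδ} (hx : ¬ Cl x.a) (hy : ¬ Cl y.a) {d : T} (hd : Cl d)
    (h1 : ¬ lt x.p d x.a) (h2 : ¬ lt y.p y.a d) : ∃ e : XX δ hδ, Cl e.a ∧ x < e ∧ e < y := by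
  obtain ⟨n, c⟩ := x.ncl hx
  obtain ⟨n', c'⟩ := y.ncl hy
  obtain ⟨e, e1, e2, e3⟩ := repCl (hδ := hδ) hd
  refine ⟨e, e1, (lt_in x.ax x.ag (Or.inr rfl) (Or.inl e1)).2 ?_,
    (lt_in y.ax y.ag (Or.inl e1) (Or.inr rfl)).2 ?_⟩
  · exact x.ax.lt_le ((c d hd).2 ((n.ne d hd).resolve_left fun k => h1 ((c d hd).1 k)))
      (by rwa [(x.ag 0).lt _ e1 _ hd])
  · exact y.ax.le_lt (by rwa [(y.ag 0).lt _ hd _ e1])
      ((c' d hd).1 ((n'.ne d hd).resolve_right fun k => h2 ((c' d hd).2 k)))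

noncomputable def pre (δ : Ω) (hδ : Ax δ) : Pre (XX δ hδ) Ω where
  D := DD
  bl := p
  c := c0
  t := t0
  mul r x y z xy yz h1 h2 h3 := by
    obtain ⟨s, hs, h, i, j, k⟩ := common h1 h2 h3
    rw [t_in h i k, t_in h i j, t_in h j k, c_in h j]
    exact hs.mul r _ _ _ ((lt_in hs h i j).1 xy) ((lt_in hs h j k).1 yz)
  proj r x y _ h1 := by
    obtain ⟨s, hs, h, i, j, -⟩ := common h1 (Or.inr (Or.inr rfl)) h1
    rw [t_in h i j, t_in h i j, hs.proj]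
  wit := wit0
  least r x v m c' m' hx hv xv hT H := by
    obtain ⟨n, c⟩ := x.ncl hx
    have i : In x.p x := Or.inr rfl
    have j : In x.p v := Or.inl hv
    rw [t_in x.ag i j] at hT
    obtain ⟨u, rfl⟩ := mk_surj m
    obtain ⟨u', rfl⟩ := mk_surj m'
    obtain ⟨w1, w2, w3, w4, w5⟩ := x.ax.wit r _ _ u c' u' ((lt_in x.ax x.ag i j).1 xv) hT
    have cw : InCut x.p (.wit x.a v.a r u c' u') := by
      refine fun d hd => ⟨fun k => x.ax.tr _ _ _ ((c d hd).1 k) w1, fun k => ?_⟩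
      obtain ⟨e, e1, e2, e3⟩ := repCl' (hδ := hδ) x.ag hd
      have ie : In x.p e := Or.inl e1
      refine x.ax.lt_le ?_ e3
      by_cases ev : e < v
      · obtain ⟨z, z1, z2, z3, z4, z5, z6⟩ := H e e1
          ((lt_in x.ax x.ag i ie).2 (x.ax.lt_le ((c d hd).2 k) e2)) ev
        have iz : In x.p z := (z3.resolve_left hx).imp id Eq.symm
        rw [t_in x.ag i iz] at z4
        rw [c_in x.ag iz] at z5
        rw [t_in x.ag iz j] at z6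
        exact x.ax.le_lt (x.ax.least r _ _ u c' u' _ ((lt_in x.ax x.ag i iz).1 z1)
          ((lt_in x.ax x.ag iz j).1 (z2.trans ev)) z4 z5 z6) ((lt_in x.ax x.ag iz ie).1 z2)
      · exact x.ax.lt_le w2 (by rwa [← lt_in x.ax x.ag ie j])
    obtain ⟨z, z1, z0, z2, z3⟩ := repCut (hδ := hδ) n cw
    obtain ⟨b1, b2, b3, b4, b5⟩ := realize x.ax x.ag i j (Or.inr z1) z2 z3 w1 w2 r
    exact ⟨z, z0, z1, b1, b2, b3.trans w3, b4.trans w4, b5.trans w5⟩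
  conv x y z hx hy e xz zy := by
    have key : ∀ d : XX δ hδ, x < d → d < y → ¬ Cl d.a := by
      intro d h1 h2 hd
      obtain ⟨n, c⟩ := x.ncl hx
      have c' : InCut x.p y.a := e ▸ (y.ncl hy).2
      rw [lt_in x.ax x.ag (Or.inr rfl) (Or.inl hd), c.hi n hd] at h1
      rw [lt_in x.ax x.ag (Or.inl hd) (Or.inr e.symm), c'.lo n hd] at h2
      exact x.ax.asymm h1 h2
    have hz := key z xz zy
    refine ⟨hz, ?_⟩
    rcases lt_def.1 xz with ⟨d, hd, h1, h2, -⟩ | ⟨-, -, -, h1⟩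
    · obtain ⟨e, e1, e2, e3⟩ := sepD hx hz hd h1 h2
      exact absurd e1 (key e e2 (e3.trans zy))
    rcases lt_def.1 zy with ⟨d, hd, k1, k2, -⟩ | ⟨-, -, -, h2⟩
    · obtain ⟨e, e1, e2, e3⟩ := sepD hz hy hd k1 k2
      exact absurd e1 (key e (xz.trans e2) e3)
    rcases h1 with h1 | h1
    · rcases h2 with h2 | h2
      · exact absurd (h1.trans h2) (by rw [show x.z.1 = y.z.1 from e]; exact lt_irrefl _)
      · exact h2.1.trans e.symm
    · exact h1.1.symm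
  good r x hx := by
    obtain ⟨n, c⟩ := x.ncl hx
    have hδ' : AgC δ δ := fun r => Agree.refl _ r _
    obtain ⟨u0, v0, hu, hv, h1, h2, lo, hi⟩ := n.good r
    obtain ⟨u, u1, u2, u3⟩ := repCl (hδ := hδ) hu
    obtain ⟨v, v1, v2, v3⟩ := repCl (hδ := hδ) hv
    have l1 : ∀ e : XX δ hδ, Cl e.a → (e < x ↔ lt x.p e.a .star) := fun e he => by
      rw [lt_in x.ax x.ag (Or.inl he) (Or.inr rfl), c.lo n he]
    have l2 : ∀ e : XX δ hδ, Cl e.a → (x < e ↔ lt x.p .star e.a) := fun e he => by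
      rw [lt_in x.ax x.ag (Or.inr rfl) (Or.inl he), c.hi n he]
    have j : t0 r u v = ty δ r u0 v0 := by
      rw [t_in hδ' (Or.inl u1) (Or.inl v1), hδ.c1 r _ _ _ u2 u3, hδ.c2 r _ _ _ v2 v3]
    refine ⟨u, v, u1, v1, (l1 u u1).2 (x.ax.le_lt (by rwa [(x.ag 0).lt _ hu _ u1]) h1),
      (l2 v v1).2 (x.ax.lt_le h2 (by rwa [(x.ag 0).lt _ v1 _ hv])), fun e he a b => ?_,
      fun e he b a => ?_⟩
    · obtain ⟨d, d1, d2, d3, d4⟩ := lo e.a he (hδ.le_le u2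
        (by rw [← lt_in hδ hδ' (Or.inl he) (Or.inl u1)]; exact not_lt.2 a)) ((l1 e he).1 b)
      obtain ⟨e', e1, e2, e3⟩ := repCl (hδ := hδ) d1
      refine ⟨e', e1, (lt_in hδ hδ' (Or.inl he) (Or.inl e1)).2 (hδ.lt_le d2 e2),
        (l1 e' e1).2 (x.ax.le_lt (by rwa [(x.ag 0).lt _ d1 _ e1]) d3), ?_⟩
      rwa [j, t_in hδ' (Or.inl he) (Or.inl e1), hδ.c2 r _ _ _ e2 e3]
    · obtain ⟨d, d1, d2, d3, d4⟩ := hi e.a he (hδ.le_le
        (by rw [← lt_in hδ hδ' (Or.inl v1) (Or.inl he)]; exact not_lt.2 a) v3) ((l2 e he).1 b)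
      obtain ⟨e', e1, e2, e3⟩ := repCl (hδ := hδ) d1
      refine ⟨e', e1, (l2 e' e1).2 (x.ax.lt_le d3 (by rwa [(x.ag 0).lt _ e1 _ d1])),
        (lt_in hδ hδ' (Or.inl e1) (Or.inl he)).2 (hδ.le_lt e3 d2), ?_⟩
      rwa [j, t_in hδ' (Or.inl e1) (Or.inl he), hδ.c1 r _ _ _ e2 e3]

end XX

end Pool.Agent.H270Z.Ord
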