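import Mathlib
import Pool.Agent.H270Z.Ord.Build

/-! Measurability of the amalgam. -/

set_option autoImplicit false

open FirstOrder FirstOrder.Language

namespace Pool.Agent.H270Z.Ord

section

variable {Z : Type} [MeasurableSpace Z] {g : Z → Ω} {a b : Z → T}

@[fun_prop] theorem meas_lt (hg : Measurable g) (ha : Measurable a) (hb : Measurable b) :
    Measurable fun z => lt (g z) (a z) (b z) := by
  have : Measurable fun w : Ω × (T × T) => lt w.1 w.2.1 w.2.2 :=
    measurable_from_prod_countable_left fun k => by unfold lt; dsimp only; fun_prop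
  exact this.comp (hg.prodMk (ha.prodMk hb))

@[fun_prop] theorem meas_cl (hg : Measurable g) (ha : Measurable a) :
    Measurable fun z => cl (g z) (a z) := by
  have : Measurable fun w : Ω × T => cl w.1 w.2 :=
    measurable_from_prod_countable_left fun k => by unfold cl; dsimp only; fun_prop
  exact this.comp (hg.prodMk ha)

@[fun_prop] theorem meas_ty (r : ℕ) (hg : Measurable g) (ha : Measurable a) (hb : Measurable b) :
    Measurable fun z => ty (g z) r (a z) (b z) := by
  have : Measurable fun w : Ω × (T × T) => ty w.1 r w.2.1 w.2.2 :=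
    measurable_from_prod_countable_left fun k => by unfold ty; dsimp only; fun_prop
  exact this.comp (hg.prodMk (ha.prodMk hb))

@[fun_prop] theorem meas_Cl (ha : Measurable a) : Measurable fun z => Cl (a z) :=
  (Measurable.of_discrete (f := Cl)).comp ha

@[fun_prop] theorem meas_enc (ha : Measurable a) (hb : Measurable b) :
    Measurable fun z => enc (a z) ≤ enc (b z) :=
  (Measurable.of_discrete (f := fun w : T × T => enc w.1 ≤ enc w.2)).comp (ha.prodMk hb)

@[fun_prop] theorem meas_rk {g' : Z → Ω} (hg : Measurable g) (hg' : Measurable g') :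
    Measurable fun z => rk (g z) < rk (g' z) :=
  (rk_emb.measurable.comp hg).lt (rk_emb.measurable.comp hg')

variable {r : ℕ} {m m' : Z → M r}

@[fun_prop] theorem meas_LeR (h : Measurable m) (h' : Measurable m') :
    Measurable fun z => LeR (m z) (m' z) :=
  (Measurable.of_discrete (f := fun w : M r × M r => LeR w.1 w.2)).comp (h.prodMk h')

@[fun_prop] theorem meas_LeL (h : Measurable m) (h' : Measurable m') :
    Measurable fun z => LeL (m z) (m' z) :=
  (Measurable.of_discrete (f := fun w : M r × M r => LeL w.1 w.2)).comp (h.prodMk h')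

@[fun_prop] theorem meas_mul (h : Measurable m) (h' : Measurable m') :
    Measurable fun z => m z * m' z :=
  (Measurable.of_discrete (f := fun w : M r × M r => w.1 * w.2)).comp (h.prodMk h')

@[fun_prop] theorem meas_LL {u v : Z → Ω × T} (hu : Measurable u) (hv : Measurable v) :
    Measurable fun z => LL (u z) (v z) := by
  unfold LL; fun_prop

end

theorem meas_nice (δ : Ω) : Measurable fun p => Nice δ p := by
  have : (fun p => Nice δ p) = fun p => Ax p ∧ (∀ r, (∀ a, Cl a → ∀ b, Cl b →
      (lt p a b ↔ lt δ a b)) ∧ (∀ a, Cl a → cl p a = cl δ a) ∧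
      ∀ a, Cl a → ∀ b, Cl b → ty p r a b = ty δ r a b) ∧
      (∀ d, Cl d → lt p d .star ∨ lt p .star d) ∧ (∀ r, GoodP δ p r) ∧ lt p .bot .star ∧
      lt p .star .top := by
    funext p
    exact propext ⟨fun h => ⟨h.ax, fun r => ⟨(h.ag r).lt, (h.ag r).cl, (h.ag r).ty⟩, h.ne, h.good,
      h.bot, h.top⟩, fun h => ⟨h.1, fun r => ⟨(h.2.1 r).1, (h.2.1 r).2.1, (h.2.1 r).2.2⟩,
        h.2.2.1, h.2.2.2.1, h.2.2.2.2.1, h.2.2.2.2.2⟩⟩
  rw [this]
  have h1 : Measurable fun p => Ax p := measurableSet_setOfPred.1 isClosed_ax.measurableSet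
  unfold GoodP
  fun_prop

theorem meas_valid (δ : Ω) : Measurable fun z => Valid δ z := by
  have h : Measurable fun z : Ω × T => Nice δ z.1 := (meas_nice δ).comp measurable_fst
  unfold Valid InCut
  fun_prop

variable {δ : Ω} {hδ : Ax δ}

instance : MeasurableSpace (XX δ hδ) := MeasurableSpace.comap XX.z inferInstance

@[fun_prop] theorem meas_z : Measurable (XX.z : XX δ hδ → Ω × T) := comap_measurable _

instance : Countable (XX.DD : Set (XX δ hδ)) :=
  Function.Injective.countable (f := fun x : (XX.DD : Set (XX δ hδ)) => x.1.a) fun x y h =>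
    Subtype.ext (XX.ext' ((x.1.clp x.2).trans (y.1.clp y.2).symm) h)

section

variable {Z : Type} [MeasurableSpace Z] {x y : Z → XX δ hδ}

@[fun_prop] theorem meas_xlt (hx : Measurable x) (hy : Measurable y) :
    Measurable fun z => x z < y z := by
  simp only [XX.lt_def]; fun_prop

@[fun_prop] theorem meas_c0 (hx : Measurable x) : Measurable fun z => XX.c0 (x z) := by
  unfold XX.c0; fun_prop

@[fun_prop] theorem meas_t0 (r : ℕ) (hx : Measurable x) (hy : Measurable y) :
    Measurable fun z => XX.t0 r (x z) (y z) := by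
  unfold XX.t0
  refine meas_ty r (Measurable.ite ?_ (by fun_prop) (by fun_prop)) (by fun_prop) (by fun_prop)
  exact measurableSet_setOfPred.2 (by fun_prop)

@[fun_prop] theorem meas_com (hx : Measurable x) (hy : Measurable y) :
    Measurable fun z => Com XX.DD XX.p (x z) (y z) := by
  unfold Com XX.DD
  simp only [Set.mem_ofPred_eq]
  fun_prop

theorem meas_TT (r : ℕ) (m : M r) (hx : Measurable x) (hy : Measurable y) :
    Measurable fun z => (XX.pre δ hδ).TT r (x z) (y z) m := by
  have e1 : ∀ P : XX δ hδ → Prop, (∃ d ∈ XX.DD, P d) ↔ ∃ d : (XX.DD : Set (XX δ hδ)), P d := by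
    intro P; simp
  have e2 : ∀ P : XX δ hδ → Prop, (∀ d ∈ XX.DD, P d) ↔ ∀ d : (XX.DD : Set (XX δ hδ)), P d := by
    intro P; simp
  unfold Pre.TT
  simp only [XX.pre, e1, e2]
  fun_prop

end

/-- The structure given by a binary and a unary predicate. -/
@[instance_reducible] def mkStr {L : FirstOrder.Language.{0, 0}} (h : ∀ n, IsEmpty (L.Functions n)) {A : Type}
    (l : A → A → Prop) (c : A → Prop) : L.Structure A where
  funMap f _ := ((h _).false f).elim
  RelMap {n} _ v := if h2 : n = 2 then l (v ⟨0, by omega⟩) (v ⟨1, by omega⟩)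
    else if h1 : n = 1 then c (v ⟨0, by omega⟩) else False

/-- The universe of the modeling. -/
def MM (b t : XX δ hδ) : Type := {z : Ω × T // Valid δ z ∧ LL b.z z ∧ LL z t.z}

variable {b t : XX δ hδ}

instance : MeasurableSpace (MM b t) := inferInstanceAs (MeasurableSpace (Subtype _))

instance : StandardBorelSpace (MM b t) := by
  have h := meas_valid δ
  have : MeasurableSet {z : Ω × T | Valid δ z ∧ LL b.z z ∧ LL z t.z} :=
    measurableSet_setOfPred.2 (by fun_prop)
  exact this.standardBorel

def κ (m : MM b t) : XX δ hδ := ⟨m.1, m.2.1⟩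

theorem meas_κ : Measurable (κ : MM b t → XX δ hδ) :=
  Measurable.of_comap_le (by
    rw [instMeasurableSpaceXX, MeasurableSpace.comap_comp]
    exact measurable_subtype_coe.comap_le)

@[instance_reducible] noncomputable def strM {L : FirstOrder.Language.{0, 0}} (h : ∀ n, IsEmpty (L.Functions n))
    (b t : XX δ hδ) : L.Structure (MM b t) :=
  mkStr h (fun u v => κ u < κ v) (fun u => XX.c0 (κ u) = true)

theorem presM {L : FirstOrder.Language.{0, 0}} {l : L.Relations 2} {c : L.Relations 1}
    (hL : Lang L l c) (b t : XX δ hδ) :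
    @Pres _ _ L l c (MM b t) (strM hL.fn b t) (XX.pre δ hδ).toTO κ b t :=
  letI := strM hL.fn b t
  ⟨fun _ _ h => Subtype.ext (congrArg XX.z h), fun a => a.2.2,
    fun z h h' => ⟨⟨z.z, z.v, h, h'⟩, rfl⟩, fun _ _ => Iff.rfl, fun _ => Iff.rfl⟩

theorem meas_real {L : FirstOrder.Language.{0, 0}} {l : L.Relations 2} {c : L.Relations 1}
    (hL : Lang L l c) (b t : XX δ hδ) {p : ℕ} (φ : L.Formula (Fin p)) :
    MeasurableSet {v : Fin p → MM b t | @Formula.Realize L _ (strM hL.fn b t) _ φ v} := by
  let := strM hL.fn b t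
  let e : (Fin p → MM b t) → Fin p ⊕ Bool → XX δ hδ := fun v =>
    Sum.elim (fun i => κ (v i)) fun s => if s then t else b
  have he : ∀ i, Measurable fun v => e v i := by
    rintro (i | s)
    · exact meas_κ.comp (measurable_pi_apply i)
    · exact measurable_const
  let dat : (Fin p → MM b t) → (Fin p ⊕ Bool → Fin p ⊕ Bool → Prop) × (Fin p ⊕ Bool → Bool) ×
      (Fin p ⊕ Bool → Fin p ⊕ Bool → M (qd φ) → Prop) := fun v =>
    (fun i j => e v i < e v j, fun i => XX.c0 (e v i),
      fun i j m => (XX.pre δ hδ).TT (qd φ) (e v i) (e v j) m)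
  have hd : Measurable dat :=
    (measurable_pi_lambda _ fun i => measurable_pi_lambda _ fun j => meas_xlt (he i) (he j)).prodMk
      ((measurable_pi_lambda _ fun i => meas_c0 (he i)).prodMk (measurable_pi_lambda _ fun i =>
        measurable_pi_lambda _ fun j => measurable_pi_lambda _ fun m => meas_TT _ m (he i) (he j)))
  have : {v : Fin p → MM b t | φ.Realize v} = dat ⁻¹' (dat '' {v | φ.Realize v}) := by
    refine Set.Subset.antisymm (Set.subset_preimage_image _ _) ?_
    rintro v ⟨w, hw, h⟩
    have h1 : ∀ i j, e w i < e w j ↔ e v i < e v j := fun i j =>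
      iff_of_eq (congrFun (congrFun (congrArg Prod.fst h) i) j)
    have h2 : ∀ i, XX.c0 (e w i) = XX.c0 (e v i) := congrFun (congrArg (fun u => u.2.1) h)
    have h3 : ∀ i j m, (XX.pre δ hδ).TT (qd φ) (e w i) (e w j) m ↔
        (XX.pre δ hδ).TT (qd φ) (e v i) (e v j) m := fun i j m =>
      iff_of_eq (congrFun (congrFun (congrFun (congrArg (fun u => u.2.2) h) i) j) m)
    refine (ef hL (presM hL b t) (presM hL b t) w v φ (fun x y => ∃ i, x = e w i ∧ y = e v i)
      ⟨?_, ?_, ?_⟩ ((Set.finite_range (e w)).subset ?_) ((Set.finite_range (e v)).subset ?_)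
      ⟨.inr false, rfl, rfl⟩ ⟨.inr true, rfl, rfl⟩ (fun i => ⟨.inl i, rfl, rfl⟩) default default
      (fun i => i.elim0)).1 hw
    · rintro _ _ _ _ ⟨i, rfl, rfl⟩ ⟨j, rfl, rfl⟩; exact h1 i j
    · rintro _ _ ⟨i, rfl, rfl⟩; exact h2 i
    · rintro _ _ _ _ ⟨i, rfl, rfl⟩ ⟨j, rfl, rfl⟩ k
      exact (Pre.tt_eq ((h1 i j).1 k) ((h3 i j _).1 (Pre.tt_spec _ k))).symm
    · rintro _ ⟨_, i, rfl, -⟩; exact ⟨i, rfl⟩
    · rintro _ ⟨_, i, -, rfl⟩; exact ⟨i, rfl⟩
  rw [this]
  exact hd (MeasurableSet.of_discrete)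

end Pool.Agent.H270Z.Ord
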