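import Mathlib
import Pool.Agent.H270Z.Ord.Meas

/-! The limit measure on diagrams. -/

set_option autoImplicit false

open MeasureTheory ProbabilityTheory Filter Topology

namespace Pool.Agent.H270Z.Ord

theorem unif_univ {C : Type} [Finite C] [Nonempty C] [MeasurableSpace C]
    [MeasurableSingletonClass C] (S : Set C) :
    uniformOn Set.univ S = ENNReal.ofReal ((Nat.card S : ℝ) / Nat.card C) := by
  have := Fintype.ofFinite C
  have h : (0 : ℝ) < Nat.card C := by exact_mod_cast Nat.card_pos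
  rw [uniformOn_univ, Measure.count_apply_finite _ S.toFinite, ENNReal.ofReal_div_of_pos h,
    ENNReal.ofReal_natCast, ENNReal.ofReal_natCast, Nat.card_eq_fintype_card (α := C),
    Nat.card_coe_set_eq, Set.ncard_eq_toFinset_card S S.toFinite]

theorem unif_pi {C : Type} [Finite C] [Nonempty C] [MeasurableSpace C]
    [MeasurableSingletonClass C] {p : ℕ} (S : Set (Fin p → C)) :
    Measure.pi (fun _ : Fin p => uniformOn (Set.univ : Set C)) S =
      ENNReal.ofReal ((Nat.card S : ℝ) / (Nat.card C : ℝ) ^ p) := by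
  rw [← uniformOn_pi, Set.pi_univ, unif_univ, Nat.card_fun, Nat.card_eq_fintype_card (α := Fin p),
    Fintype.card_fin, Nat.cast_pow]

noncomputable def unif (A : Type) [Finite A] [Nonempty A] (g : A → Ω) : ProbabilityMeasure Ω :=
  letI : MeasurableSpace A := ⊤
  ⟨(uniformOn (Set.univ : Set A)).map g,
    Measure.isProbabilityMeasure_map measurable_from_top.aemeasurable⟩

theorem unif_apply (A : Type) [Finite A] [Nonempty A] (g : A → Ω) {S : Set Ω}
    (hS : MeasurableSet S) : (unif A g : Measure Ω) S =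
      ENNReal.ofReal ((Nat.card (g ⁻¹' S) : ℝ) / Nat.card A) := by
  let : MeasurableSpace A := ⊤
  have : MeasurableSingletonClass A := ⟨fun _ => trivial⟩
  rw [← unif_univ]
  exact Measure.map_apply measurable_from_top hS

theorem unif_pi_apply (A : Type) [Finite A] [Nonempty A] (g : A → Ω) {p : ℕ}
    {S : Set (Fin p → Ω)} (hS : MeasurableSet S) :
    Measure.pi (fun _ : Fin p => (unif A g : Measure Ω)) S =
      ENNReal.ofReal ((Nat.card {v : Fin p → A // (fun i => g (v i)) ∈ S} : ℝ) /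
        (Nat.card A : ℝ) ^ p) := by
  let : MeasurableSpace A := ⊤
  have : MeasurableSingletonClass A := ⟨fun _ => trivial⟩
  have hg : Measurable g := measurable_from_top
  have := Measure.pi_map_pi (μ := fun _ : Fin p => uniformOn (Set.univ : Set A))
    (f := fun _ => g) (fun _ => hg.aemeasurable)
  change Measure.pi (fun _ : Fin p => (uniformOn (Set.univ : Set A)).map g) S = _
  rw [← this, Measure.map_apply (by fun_prop) hS, unif_pi]
  rfl

theorem open_le {Z : Type} [MeasurableSpace Z] [TopologicalSpace Z] [OpensMeasurableSpace Z]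
    [HasOuterApproxClosed Z] {U : Filter ℕ} [U.NeBot] {ν : ProbabilityMeasure Z}
    {νs : ℕ → ProbabilityMeasure Z} (h : Tendsto νs U (𝓝 ν)) {G : Set Z} (hG : IsOpen G)
    {c : ENNReal} (hc : ∀ᶠ n in U, (νs n : Measure Z) G ≤ c) : (ν : Measure Z) G ≤ c :=
  (ProbabilityMeasure.le_liminf_measure_open_of_tendsto h hG).trans
    (liminf_le_of_frequently_le' hc.frequently)

theorem isClopen_lt (a b : T) : IsClopen {p : Ω | lt p a b} :=
  (isClopen_discrete {true}).preimage (f := fun p : Ω => p.1 (a, b)) (by fun_prop)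

theorem card_cell {A : Type} {N : ℕ} (f : ℕ → Bool) {ι : A → ℕ} (hι : Function.Injective ι)
    (hm : ∀ a, ι a < N + 1) (k : ℕ) (g : ℕ → Prop) :
    Nat.card ((fun a => Ψ N f (ι a)) ⁻¹' {p | ∀ i ≤ k, lt p (.ref k i) .star ↔ g i}) ≤
      N / (k + 1) + 1 := by
  set h := N / (k + 1) + 1 with hh
  have h0 : 0 < h := Nat.succ_pos _
  have hN : N < (k + 1) * h := by
    have := Nat.lt_mul_div_succ N (Nat.succ_pos k)
    exact this
  have key : ∀ x y : ℕ, x < y → y < N + 1 → x % h = y % h →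
      ∃ i ≤ k, ¬ i * h < x ∧ i * h < y := by
    intro x y hxy hy e
    have e1 : x / h < y / h := by
      by_contra c
      have := Nat.mul_le_mul_left h (not_lt.1 c)
      have := Nat.div_add_mod x h
      have := Nat.div_add_mod y h
      omega
    have e2 := Nat.div_add_mod x h
    have e3 := Nat.div_add_mod y h
    have e4 := Nat.mod_lt x h0
    have e5 := Nat.mul_le_mul_left h (Nat.succ_le_of_lt e1)
    rw [Nat.mul_succ] at e5
    have lt' : ∀ i, i * h < y → i ≤ k := fun i hi => by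
      by_contra c
      have : (k + 1) * h ≤ i * h := Nat.mul_le_mul_right h (by omega)
      omega
    rcases Nat.eq_zero_or_pos (x % h) with z | z
    · have : x / h * h < y := by rw [mul_comm]; omega
      exact ⟨x / h, lt' _ this, by rw [mul_comm]; omega, this⟩
    · have : (x / h + 1) * h < y := by rw [add_mul, mul_comm]; omega
      exact ⟨x / h + 1, lt' _ this, by rw [add_mul, mul_comm]; omega, this⟩
  rw [← Nat.card_fin h]
  refine Nat.card_le_card_of_injective (fun a => (⟨ι a.1 % h, Nat.mod_lt _ h0⟩ : Fin h)) ?_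
  rintro ⟨a, ha⟩ ⟨b, hb⟩ e
  simp only [Set.mem_preimage, Set.mem_ofPred_eq, lt_Ψ, ev] at ha hb
  simp only [Fin.mk.injEq] at e
  refine Subtype.ext (hι ?_)
  rcases lt_trichotomy (ι a) (ι b) with c | c | c
  · obtain ⟨i, i1, i2, i3⟩ := key _ _ c (hm b) e
    exact absurd ((ha i i1).2 ((hb i i1).1 i3)) i2
  · exact c
  · obtain ⟨i, i1, i2, i3⟩ := key _ _ c (hm a) e.symm
    exact absurd ((hb i i1).2 ((ha i i1).1 i3)) i2

theorem exists_stab {δ p : Ω} (hδ : Ax δ) (hp : Ax p) (ag : AgC p δ) (hb : lt p .bot .star)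
    (ht : lt p .star .top) (r : ℕ) : ∃ u0 v0, Cl u0 ∧ Cl v0 ∧ lt p u0 .star ∧ lt p .star v0 ∧
      ∀ u v, Cl u → Cl v → ¬ lt δ u u0 → lt p u .star → lt p .star v → ¬ lt δ v0 v →
        LeJ (ty δ r u v) (ty δ r u0 v0) := by
  obtain ⟨_, ⟨u0, v0, h1, h2, h3, h4, rfl⟩, hm⟩ := exists_max
    (S := {m | ∃ u v, Cl u ∧ Cl v ∧ lt p u .star ∧ lt p .star v ∧ m = ty δ r u v})
    ⟨_, .bot, .top, trivial, trivial, hb, ht, rfl⟩
  refine ⟨u0, v0, h1, h2, h3, h4, fun u v a1 a2 a3 a4 a5 a6 =>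
    hm _ ⟨u, v, a1, a2, a4, a5, rfl⟩ ?_⟩
  have uv : lt δ u v := ((ag 0).lt _ a1 _ a2).1 (hp.tr _ _ _ a4 a5)
  have uv0 : lt δ u v0 := hδ.lt_le uv a6
  refine LeJ.trans (b := ty δ r u v0) ?_ ?_
  · by_cases k : lt δ u0 u
    · exact ⟨_, 1, by rw [hδ.mul r _ _ _ k uv0, mul_one]⟩
    · rw [hδ.c1 r _ _ _ k a3]; exact LeJ.refl _
  · by_cases k : lt δ v v0
    · exact ⟨1, _, by rw [hδ.mul r _ _ _ uv k, one_mul, mul_assoc]⟩
    · rw [hδ.c2 r _ _ _ k a6]; exact LeJ.refl _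

theorem ae_nice {δ : Ω} (hδ : Ax δ) {ν : Measure Ω}
    (h0 : ∀ g : ℕ → ℕ → Prop, ν {p | ∀ k i, lt p (.ref k i) .star ↔ g k i} = 0)
    (h1 : ∀ᵐ p ∂ν, Ax p ∧ AgC p δ ∧ lt p .bot .star ∧ lt p .star .top) : ∀ᵐ p ∂ν, Nice δ p := by
  have same : ∀ S : Set Ω, (∀ p ∈ S, ∀ q ∈ S, ∀ d, Cl d → lt q d .star → lt p d .star) →
      ∀ᵐ p ∂ν, p ∉ S := by
    intro S hS
    rcases S.eq_empty_or_nonempty with rfl | ⟨q, hq⟩
    · simp
    refine measure_eq_zero_iff_ae_notMem.1 (measure_mono_null ?_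
      (h0 fun k i => lt q (.ref k i) .star))
    exact fun p hp k i => ⟨hS q hq p hp _ trivial, hS p hp q hq _ trivial⟩
  have h2 : ∀ᵐ p ∂ν, ∀ d, p ∉ {p | Cl d ∧ Ax p ∧ AgC p δ ∧ ¬ lt p d .star ∧ ¬ lt p .star d} := by
    refine ae_all_iff.2 fun d => same _ ?_
    rintro p ⟨hd, a1, a2, a3, a4⟩ q ⟨-, b1, b2, b3, b4⟩ e he k
    exact a1.lt_le ((XX.lt_cl b2 a2 he hd).1 (b1.lt_le k b3)) a4
  let St : ℕ → T → T → Ω → Prop := fun r u0 v0 p => Ax p ∧ AgC p δ ∧
    (∀ d, Cl d → lt p d .star ∨ lt p .star d) ∧ Cl u0 ∧ Cl v0 ∧ lt p u0 .star ∧ lt p .star v0 ∧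
      ∀ u v, Cl u → Cl v → ¬ lt δ u u0 → lt p u .star → lt p .star v → ¬ lt δ v0 v →
        LeJ (ty δ r u v) (ty δ r u0 v0)
  have h3 : ∀ᵐ p ∂ν, ∀ r u0 v0 u, p ∉ {p | St r u0 v0 p ∧ Cl u ∧ ¬ lt δ u u0 ∧ lt p u .star ∧
      ∀ u', Cl u' → lt δ u u' → lt p u' .star → ¬ LeJ (ty δ r u u') (ty δ r u0 v0)} := by
    refine ae_all_iff.2 fun r => ae_all_iff.2 fun u0 => ae_all_iff.2 fun v0 =>
      ae_all_iff.2 fun u => same _ ?_
    rintro p ⟨⟨a1, a2, a3, a4, a5, a6, a7, a8⟩, a9, a10, a11, -⟩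
      q ⟨⟨b1, b2, -, -, -, -, b7, -⟩, -, -, -, b12⟩ d hd k
    refine (a3 d hd).resolve_right fun k' => b12 d hd
      (((a2 0).lt _ a9 _ hd).1 (a1.tr _ _ _ a11 k')) k (a8 u d a9 hd a10 a11 k' ?_)
    exact hδ.asymm (((b2 0).lt _ hd _ a5).1 (b1.tr _ _ _ k b7))
  have h4 : ∀ᵐ p ∂ν, ∀ r u0 v0 v, p ∉ {p | St r u0 v0 p ∧ Cl v ∧ ¬ lt δ v0 v ∧ lt p .star v ∧
      ∀ v', Cl v' → lt δ v' v → lt p .star v' → ¬ LeJ (ty δ r v' v) (ty δ r u0 v0)} := by
    refine ae_all_iff.2 fun r => ae_all_iff.2 fun u0 => ae_all_iff.2 fun v0 =>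
      ae_all_iff.2 fun v => same _ ?_
    rintro p ⟨⟨a1, a2, a3, a4, a5, a6, a7, -⟩, a9, a10, -, a12⟩
      q ⟨⟨b1, b2, -, -, -, -, -, b8⟩, -, -, b11, -⟩ d hd k
    refine (a3 d hd).resolve_right fun k' => a12 d hd
      (((b2 0).lt _ hd _ a9).1 (b1.tr _ _ _ k b11)) k' (b8 d v hd a9 ?_ k b11 a10)
    exact hδ.asymm (((a2 0).lt _ a4 _ hd).1 (a1.tr _ _ _ a6 k'))
  filter_upwards [h1, h2, h3, h4] with p ⟨a1, a2, a3, a4⟩ b2 b3 b4
  have ne : ∀ d, Cl d → lt p d .star ∨ lt p .star d := fun d hd => by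
    by_contra c
    exact b2 d ⟨hd, a1, a2, (not_or.1 c).1, (not_or.1 c).2⟩
  refine ⟨a1, a2, ne, fun r => ?_, a3, a4⟩
  obtain ⟨u0, v0, c1, c2, c3, c4, c5⟩ := exists_stab hδ a1 a2 a3 a4 r
  refine ⟨u0, v0, c1, c2, c3, c4, fun u d1 d2 d3 => ?_, fun v d1 d2 d3 => ?_⟩
  · by_contra c
    exact b3 r u0 v0 u ⟨⟨a1, a2, ne, c1, c2, c3, c4, c5⟩, d1, d2, d3,
      fun u' e1 e2 e3 e4 => c ⟨u', e1, e2, e3, e4⟩⟩
  · by_contra c
    exact b4 r u0 v0 v ⟨⟨a1, a2, ne, c1, c2, c3, c4, c5⟩, d1, d2, d3,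
      fun u' e1 e2 e3 e4 => c ⟨u', e1, e2, e3, e4⟩⟩

theorem ae_sep {ν : Measure Ω} [IsProbabilityMeasure ν]
    (h0 : ∀ g : ℕ → ℕ → Prop, ν {p | ∀ k i, lt p (.ref k i) .star ↔ g k i} = 0) {p : ℕ} :
    ∀ᵐ v ∂(Measure.pi fun _ : Fin p => ν), ∀ i j, i ≠ j →
      ∃ d, Cl d ∧ ¬ (lt (v i) d .star ↔ lt (v j) d .star) := by
  refine ae_all_iff.2 fun i => ae_all_iff.2 fun j => ?_
  by_cases hij : i = j
  · simp [hij]
  have hi := (iIndepFun_pi (μ := fun _ : Fin p => ν) (X := fun _ => id)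
    (fun _ => aemeasurable_id)).indepFun hij
  have e : ∀ k : Fin p, (Measure.pi fun _ : Fin p => ν).map (fun v => v k) = ν := fun k =>
    (measurePreserving_eval (fun _ : Fin p => ν) k).map_eq
  simp only [id] at hi
  rw [indepFun_iff_map_prod_eq_prod_map_map (measurable_pi_apply i).aemeasurable
    (measurable_pi_apply j).aemeasurable, e, e] at hi
  have hS : MeasurableSet {w : Ω × Ω | ∀ k i, lt w.2 (.ref k i) .star ↔ lt w.1 (.ref k i) .star} :=
    measurableSet_setOfPred.2 (by fun_prop)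
  have hz : ν.prod ν {w : Ω × Ω | ∀ k i, lt w.2 (.ref k i) .star ↔ lt w.1 (.ref k i) .star} = 0 := by
    rw [Measure.prod_apply hS]
    exact lintegral_eq_zero_of_ae_eq_zero (Eventually.of_forall fun q =>
      h0 fun k i => lt q (.ref k i) .star)
  rw [← hi, Measure.map_apply (by fun_prop) hS] at hz
  filter_upwards [measure_eq_zero_iff_ae_notMem.1 hz] with v hv _
  by_contra c
  exact hv fun k i => by_contra fun c' => c ⟨.ref k i, trivial, fun c'' => c' c''.symm⟩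

end Pool.Agent.H270Z.Ord
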