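import Mathlib
import Pool.Agent.H270Z.Ord.Limit

/-! Modeling limits of coloured linear orders. -/

set_option autoImplicit false

open MeasureTheory ProbabilityTheory Filter Topology FirstOrder FirstOrder.Language

namespace Pool.Agent.H270Z.Ord

open XX

instance : BorelSpace Ω := inferInstance
instance : OpensMeasurableSpace Ω := inferInstance
instance : T2Space Ω := inferInstance
instance : CompactSpace Ω := inferInstance
instance : SecondCountableTopology Ω := inferInstance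
instance : TopologicalSpace.PseudoMetrizableSpace Ω := inferInstance
instance (p : ℕ) : OpensMeasurableSpace (Fin p → Ω) := inferInstance
instance (p : ℕ) : HasOuterApproxClosed (Fin p → Ω) := inferInstance

variable {δ : Ω} {hδ : Ax δ}

noncomputable def rep (hδ : Ax δ) (d : {d // Cl d}) : XX δ hδ := (repCl d.2).choose

theorem rep_spec {s : Ω} (h : AgC s δ) (d : {d // Cl d}) :
    Cl (rep hδ d).a ∧ ¬ lt s (rep hδ d).a d.1 ∧ ¬ lt s d.1 (rep hδ d).a := by
  obtain ⟨h1, h2, h3⟩ := (repCl (hδ := hδ) d.2).choose_spec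
  exact ⟨h1, fun k => h2 (((h 0).lt _ h1 _ d.2).1 k), fun k => h3 (((h 0).lt _ d.2 _ h1).1 k)⟩

def sp (hδ : Ax δ) {p : Ω} (n : Nice δ p) : XX δ hδ :=
  ⟨(p, .star), Or.inr ⟨n, fun _ _ => ⟨id, id⟩, fun _ _ _ => enc_star ▸ Nat.zero_le _⟩⟩

def Mt (f : ℕ → Bool) (r : ℕ) (m : ℕ) (x : XX δ hδ) (m' : ℕ) (x' : XX δ hδ) : Prop :=
  (m < m' ↔ x < x') ∧ f m = c0 x ∧ (m < m' → mk r (seg f m m') = (pre δ hδ).tt r x x')

theorem match_in {N y r : ℕ} {f : ℕ → Bool} {s : Ω} (hs : Ax s) (h : AgC s δ) {x x' : XX δ hδ}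
    (i : In s x) (j : In s x') {a a' : T} (e1 : ¬ lt s x.a a) (e2 : ¬ lt s a x.a)
    (e1' : ¬ lt s x'.a a') (e2' : ¬ lt s a' x'.a) {S : Set T} (ag : Agree S r s (Ψ N f y))
    (ha : a ∈ S) (ha' : a' ∈ S) : Mt f r (ev N f y a) x (ev N f y a') x' := by
  have k : ev N f y a < ev N f y a' ↔ x < x' := by
    rw [← lt_Ψ, ← ag.lt a ha a' ha', lt_in hs h i j]
    exact ⟨fun k => hs.le_lt e2 (hs.lt_le k e1'), fun k => hs.le_lt e1 (hs.lt_le k e2')⟩
  refine ⟨k, ?_, fun k' => ?_⟩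
  · rw [c_in h i, hs.cc _ _ e1 e2, ag.cl a ha, cl_Ψ]
  · rw [Pre.tt_com (k.1 k') (com_in i j), ← ty_Ψ, ← ag.ty a ha a' ha']
    change _ = t0 r x x'
    rw [t_in h i j, hs.c1 r _ _ _ e1 e2, hs.c2 r _ _ _ e1' e2']

theorem good_word {N r p : ℕ} {f : ℕ → Bool} {R : Set T} (hR : ∀ d ∈ R, Cl d) {q : Fin p → Ω}
    (hq : ∀ i, Nice δ (q i))
    (sep : ∀ i j, i ≠ j → ∃ d ∈ R, ¬ (lt (q i) d .star ↔ lt (q j) d .star)) {y : Fin p → ℕ}
    (ag0 : Agree R r δ (Ψ N f 0)) (ag : ∀ i, Agree (insert .star R) r (q i) (Ψ N f (y i))) :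
    Good (wordTO f) (pre δ hδ).toTO r (fun m x => (∃ d : {d // Cl d}, d.1 ∈ R ∧
      m = ev N f 0 d.1 ∧ x = rep hδ d) ∨ ∃ i, m = y i ∧ x = sp hδ (hq i)) := by
  have hδ' : AgC δ δ := fun r => Agree.refl _ r _
  have dd : ∀ d e : {d // Cl d}, d.1 ∈ R → e.1 ∈ R →
      Mt f r (ev N f 0 d.1) (rep hδ d) (ev N f 0 e.1) (rep hδ e) := fun d e hd he =>
    match_in hδ hδ' (Or.inl (rep_spec hδ' d).1) (Or.inl (rep_spec hδ' e).1) (rep_spec hδ' d).2.1
      (rep_spec hδ' d).2.2 (rep_spec hδ' e).2.1 (rep_spec hδ' e).2.2 ag0 hd he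
  have di : ∀ (d : {d // Cl d}) i, d.1 ∈ R →
      Mt f r (ev N f 0 d.1) (rep hδ d) (y i) (sp hδ (hq i)) := fun d i hd => by
    rw [ev_cl N f 0 (y i) _ d.2]
    exact match_in (a' := .star) (hq i).ax (hq i).ag (Or.inl (rep_spec hδ' d).1) (Or.inr rfl)
      (rep_spec (hq i).ag d).2.1 (rep_spec (hq i).ag d).2.2 ((hq i).ax.irr _) ((hq i).ax.irr _)
      (ag i) (Or.inr hd) (Or.inl rfl)
  have id' : ∀ (d : {d // Cl d}) i, d.1 ∈ R →
      Mt f r (y i) (sp hδ (hq i)) (ev N f 0 d.1) (rep hδ d) := fun d i hd => by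
    rw [ev_cl N f 0 (y i) _ d.2]
    exact match_in (a := .star) (hq i).ax (hq i).ag (Or.inr rfl) (Or.inl (rep_spec hδ' d).1)
      ((hq i).ax.irr _) ((hq i).ax.irr _) (rep_spec (hq i).ag d).2.1 (rep_spec (hq i).ag d).2.2
      (ag i) (Or.inl rfl) (Or.inr hd)
  have ii : ∀ i, Mt f r (y i) (sp hδ (hq i)) (y i) (sp hδ (hq i)) := fun i =>
    match_in (a := .star) (a' := .star) (hq i).ax (hq i).ag (Or.inr rfl) (Or.inr rfl)
      ((hq i).ax.irr _) ((hq i).ax.irr _) ((hq i).ax.irr _) ((hq i).ax.irr _) (ag i) (Or.inl rfl)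
      (Or.inl rfl)
  have sc : ∀ i j d, d ∈ R → ¬ lt (q i) d .star → lt (q j) d .star →
      Mt f r (y i) (sp hδ (hq i)) (y j) (sp hδ (hq j)) ∧
        Mt f r (y j) (sp hδ (hq j)) (y i) (sp hδ (hq i)) := by
    intro i j d hd k k'
    obtain ⟨a1, a2, a3⟩ := id' ⟨d, hR d hd⟩ i hd
    obtain ⟨b1, b2, b3⟩ := di ⟨d, hR d hd⟩ j hd
    have c1 : sp hδ (hq i) < rep hδ ⟨d, hR d hd⟩ :=
      (lt_in (hq i).ax (hq i).ag (Or.inr rfl) (Or.inl (rep_spec hδ' _).1)).2
        ((hq i).ax.lt_le (((hq i).ne d (hR d hd)).resolve_left k) (rep_spec (hq i).ag _).2.1)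
    have c2 : rep hδ ⟨d, hR d hd⟩ < sp hδ (hq j) :=
      (lt_in (hq j).ax (hq j).ag (Or.inl (rep_spec hδ' _).1) (Or.inr rfl)).2
        ((hq j).ax.le_lt (rep_spec (hq j).ag _).2.2 k')
    have c3 := (a1.2 c1).trans (b1.2 c2)
    refine ⟨⟨iff_of_true c3 (c1.trans c2), a2, fun _ => ?_⟩,
      iff_of_false (lt_asymm c3) (lt_asymm (c1.trans c2)), (ii j).2.1,
      fun k => absurd k (lt_asymm c3)⟩
    rw [Pre.tt_mul r _ _ _ c1 c2, ← a3 (a1.2 c1), ← b3 (b1.2 c2), seg_split f (a1.2 c1) (b1.2 c2),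
      mk_split, b2]
    rfl
  have ij : ∀ i j, Mt f r (y i) (sp hδ (hq i)) (y j) (sp hδ (hq j)) := by
    intro i j
    by_cases e : i = j
    · subst e; exact ii i
    obtain ⟨d, hd, k⟩ := sep i j e
    by_cases k' : lt (q i) d .star
    · exact (sc j i d hd (fun c => k (iff_of_true k' c)) k').2
    · exact (sc i j d hd k' (by_contra fun c => k (iff_of_false k' c))).1
  refine ⟨?_, ?_, ?_⟩
  · rintro _ _ _ _ (⟨d, hd, rfl, rfl⟩ | ⟨i, rfl, rfl⟩) (⟨e, he, rfl, rfl⟩ | ⟨j, rfl, rfl⟩)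
    exacts [(dd d e hd he).1, (di d j hd).1, (id' e i he).1, (ij i j).1]
  · rintro _ _ (⟨d, hd, rfl, rfl⟩ | ⟨i, rfl, rfl⟩)
    exacts [(dd d d hd hd).2.1, (ii i).2.1]
  · rintro _ _ _ _ (⟨d, hd, rfl, rfl⟩ | ⟨i, rfl, rfl⟩) (⟨e, he, rfl, rfl⟩ | ⟨j, rfl, rfl⟩)
    exacts [(dd d e hd he).2.2, (di d j hd).2.2, (id' e i he).2.2, (ij i j).2.2]

variable {L : FirstOrder.Language.{0, 0}} {l : L.Relations 2} {c : L.Relations 1}

/-- The Stone pairing. -/
noncomputable def pair (A : Type) [L.Structure A] {p : ℕ} (φ : L.Formula (Fin p)) : ℝ :=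
  (Nat.card {v : Fin p → A // φ.Realize v} : ℝ) / (Nat.card A : ℝ) ^ p

theorem pair_not (A : Type) [L.Structure A] [Finite A] [Nonempty A] {p : ℕ}
    (φ : L.Formula (Fin p)) : pair A φ.not = 1 - pair A φ := by
  classical
  have h : (0 : ℝ) < (Nat.card A : ℝ) ^ p := by have := Nat.card_pos (α := A); positivity
  have := Nat.card_congr (Equiv.sumCompl (fun v : Fin p → A => φ.Realize v))
  rw [Nat.card_sum, Nat.card_fun, Nat.card_eq_fintype_card (α := Fin p), Fintype.card_fin] at this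
  have e := congrArg (Nat.cast : ℕ → ℝ) this
  push_cast at e
  unfold pair
  simp only [Formula.realize_not]
  field_simp
  linarith

noncomputable abbrev bb (hδ : Ax δ) : XX δ hδ := rep hδ ⟨.bot, trivial⟩
noncomputable abbrev tp (hδ : Ax δ) : XX δ hδ := rep hδ ⟨.top, trivial⟩

def sM (hδ : Ax δ) {p : Ω} (n : Nice δ p) : MM (bb hδ) (tp hδ) :=
  ⟨(p, .star), (sp hδ n).v,
    (LL_in (y := sp hδ n) n.ax n.ag (Or.inl (rep_spec n.ag _).1) (Or.inr rfl)).2
      (n.ax.le_lt (rep_spec n.ag _).2.2 n.bot),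
    (LL_in (x := sp hδ n) n.ax n.ag (Or.inr rfl) (Or.inl (rep_spec n.ag _).1)).2
      (n.ax.lt_le n.top (rep_spec n.ag _).2.1)⟩

theorem unbounded (hL : Lang L l c) (A : ℕ → Type) [∀ n, Finite (A n)] [∀ n, Nonempty (A n)]
    [∀ n, L.Structure (A n)] (f : ℕ → ℕ → Bool) (ι : ∀ n, A n → ℕ)
    (hP : ∀ n, Pres l c (A n) (wordTO (f n)) (ι n) 0 (Nat.card (A n) + 1)) (U : Ultrafilter ℕ)
    (hU : Tendsto (fun n => Nat.card (A n)) U atTop) :
    ∃ (M : Type) (_ : MeasurableSpace M) (_ : StandardBorelSpace M) (_ : L.Structure M)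
      (μ : Measure M) (_ : IsProbabilityMeasure μ),
      (∀ (p : ℕ) (φ : L.Formula (Fin p)), MeasurableSet {v : Fin p → M | φ.Realize v}) ∧
      ∀ (p : ℕ) (φ : L.Formula (Fin p)) (ℓ : ℝ), Tendsto (fun n => pair (A n) φ) U (𝓝 ℓ) →
        (Measure.pi (fun _ : Fin p => μ) {v : Fin p → M | φ.Realize v}).toReal ≤ ℓ := by
  classical
  set N : ℕ → ℕ := fun n => Nat.card (A n) with hN
  obtain ⟨δ, -, hδU⟩ := isCompact_univ.ultrafilter_le_nhds (U.map fun n => Ψ (N n) (f n) 0)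
    (by simp)
  have hδU' : Tendsto (fun n => Ψ (N n) (f n) 0) U (𝓝 δ) := hδU
  have hδ : Ax δ := isClosed_ax.mem_of_tendsto hδU' (Eventually.of_forall fun n => ax_Ψ _ _ _)
  let g : ∀ n, A n → Ω := fun n a => Ψ (N n) (f n) (ι n a)
  obtain ⟨ν, -, hνU⟩ := isCompact_univ.ultrafilter_le_nhds (U.map fun n => unif (A n) (g n))
    (by simp)
  have hν : Tendsto (fun n => unif (A n) (g n)) U (𝓝 ν) := hνU
  have aec : ∀ C : Set Ω, IsClosed C → (∀ᶠ n in U, ∀ a, g n a ∈ C) → ∀ᵐ p ∂(ν : Measure Ω), p ∈ C := by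
    intro C hC h
    refine le_antisymm (open_le hν hC.isOpen_compl ?_) zero_le
    filter_upwards [h] with n hn
    rw [unif_apply _ _ hC.measurableSet.compl, show g n ⁻¹' Cᶜ = ∅ from
      Set.eq_empty_of_forall_notMem fun a ha => ha (hn a)]
    simp
  have agc : ∀ (R : Set T) (r : ℕ), (∀ d ∈ R, Cl d) → ∀ n x,
      Agree R r (Ψ (N n) (f n) 0) (Ψ (N n) (f n) x) := fun R r hR n x =>
    ⟨fun a u b v => by simp [ev_cl _ _ 0 x a (hR a u), ev_cl _ _ 0 x b (hR b v)],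
      fun a u => by simp [ev_cl _ _ 0 x a (hR a u)],
      fun a u b v => by simp [ev_cl _ _ 0 x a (hR a u), ev_cl _ _ 0 x b (hR b v)]⟩
  have h1 : ∀ᵐ p ∂(ν : Measure Ω), Ax p ∧ AgC p δ ∧ lt p .bot .star ∧ lt p .star .top := by
    have a1 := aec _ isClosed_ax (Eventually.of_forall fun n a => ax_Ψ _ _ _)
    have a2 : ∀ᵐ p ∂(ν : Measure Ω), ∀ (r : ℕ) (a b : {d // Cl d}), Agree {a.1, b.1} r δ p := by
      refine ae_all_iff.2 fun r => ae_all_iff.2 fun a => ae_all_iff.2 fun b =>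
        aec _ (isClosed_agree (Set.toFinite _) r δ) ?_
      filter_upwards [hδU'.eventually (agree_nhds (Set.toFinite {a.1, b.1}) r δ)] with n hn x
      exact hn.trans (agc _ r (by rintro d (rfl | rfl); exacts [a.2, b.2]) n _)
    have a3 := aec _ (isClopen_lt .bot .star).1 (Eventually.of_forall fun n a =>
      lt_Ψ.2 ((hP n).mem a).1)
    have a4 := aec _ (isClopen_lt .star .top).1 (Eventually.of_forall fun n a =>
      lt_Ψ.2 ((hP n).mem a).2)
    filter_upwards [a1, a2, a3, a4] with p b1 b2 b3 b4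
    exact ⟨b1, fun r => ⟨fun a u b v => ((b2 r ⟨a, u⟩ ⟨b, v⟩).lt a (by simp) b (by simp)).symm,
      fun a u => ((b2 r ⟨a, u⟩ ⟨a, u⟩).cl a (by simp)).symm,
      fun a u b v => ((b2 r ⟨a, u⟩ ⟨b, v⟩).ty a (by simp) b (by simp)).symm⟩, b3, b4⟩
  have h0 : ∀ e : ℕ → ℕ → Prop,
      (ν : Measure Ω) {p | ∀ k i, lt p (.ref k i) .star ↔ e k i} = 0 := by
    intro e
    have hk : ∀ k : ℕ, (ν : Measure Ω) {p | ∀ k i, lt p (.ref k i) .star ↔ e k i} ≤
        ENNReal.ofReal (2 * (1 / ((k : ℝ) + 1))) := by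
      intro k
      have ho : IsOpen {p : Ω | ∀ i ≤ k, lt p (.ref k i) .star ↔ e k i} := by
        have : {p : Ω | ∀ i ≤ k, lt p (.ref k i) .star ↔ e k i} =
            ⋂ i ∈ Set.Iic k, {p : Ω | lt p (.ref k i) .star ↔ e k i} := by ext; simp
        rw [this]
        refine (Set.finite_Iic k).isOpen_biInter fun i _ => ?_
        by_cases h : e k i
        · simpa [h] using (isClopen_lt _ _).2
        · simp only [h, iff_false]
          exact (isClopen_lt _ _).1.isOpen_compl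
      refine le_trans (measure_mono ?_) (open_le hν ho ?_)
      · exact fun p hp i _ => hp k i
      filter_upwards [hU.eventually_ge_atTop (k + 1)] with n hn
      rw [unif_apply _ _ ho.measurableSet]
      refine ENNReal.ofReal_le_ofReal ?_
      have h1 := card_cell (f n) (hP n).inj (fun a => ((hP n).mem a).2) k (e k)
      have h2 : ((N n / (k + 1) : ℕ) : ℝ) ≤ N n / ((k + 1 : ℕ) : ℝ) := Nat.cast_div_le
      have h3 : ((k + 1 : ℕ) : ℝ) ≤ N n := by exact_mod_cast hn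
      have h4 : (0 : ℝ) < ((k + 1 : ℕ) : ℝ) := by positivity
      have h5 : (1 : ℝ) ≤ N n / ((k + 1 : ℕ) : ℝ) := by rwa [le_div_iff₀ h4, one_mul]
      rw [div_le_iff₀ (by linarith)]
      calc _ ≤ ((N n / (k + 1) + 1 : ℕ) : ℝ) := by exact_mod_cast h1
        _ ≤ 2 * (N n / ((k + 1 : ℕ) : ℝ)) := by rw [Nat.cast_add, Nat.cast_one]; linarith
        _ = _ := by push_cast; ring
    have := ENNReal.tendsto_ofReal (tendsto_one_div_add_atTop_nhds_zero_nat.const_mul (2 : ℝ))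
    simp only [mul_zero, ENNReal.ofReal_zero] at this
    exact le_antisymm (ge_of_tendsto' this hk) zero_le
  have hn := ae_nice hδ h0 h1
  obtain ⟨p0, hp0⟩ := hn.exists
  let s : Ω → MM (bb hδ) (tp hδ) := fun p => if h : Nice δ p then sM hδ h else sM hδ hp0
  have hs : Measurable s := by
    have : Measurable fun p => (s p).1 := by
      have e : (fun p => (s p).1) = fun p => (if Nice δ p then p else p0, T.star) := by
        funext p; simp only [s]; split_ifs <;> rfl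
      rw [e]
      exact (Measurable.ite (measurableSet_setOfPred.2 (meas_nice δ)) measurable_id
        measurable_const).prodMk measurable_const
    exact this.subtype_mk
  let := strM hL.fn (bb hδ) (tp hδ)
  refine ⟨MM (bb hδ) (tp hδ), inferInstance, inferInstance, this, (ν : Measure Ω).map s,
    Measure.isProbabilityMeasure_map hs.aemeasurable, fun p φ => meas_real hL _ _ φ,
    fun p φ ℓ hℓ => ?_⟩
  have hl0 : 0 ≤ ℓ := ge_of_tendsto' hℓ fun n => by unfold pair; positivity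
  refine ENNReal.toReal_le_of_le_ofReal hl0 ?_
  rw [← Measure.pi_map_pi fun _ => hs.aemeasurable, Measure.map_apply (by fun_prop)
    (meas_real hL _ _ φ)]
  let R : ℕ → Set T := fun k => {d | Cl d ∧ (enc d ≤ k ∨ d = .bot ∨ d = .top)}
  have hRf : ∀ k, (R k).Finite := fun k =>
    ((((Set.finite_Iic k).preimage enc_inj.injOn).insert .bot).insert .top).subset fun d hd => by
      rcases hd.2 with h | h | h
      exacts [Or.inr (Or.inr h), Or.inr (Or.inl h), Or.inl h]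
  let Φ : ℕ → Set (Fin p → Ω) := fun k => {q | (∀ i, Nice δ (q i)) ∧
    (∀ i j, i ≠ j → ∃ d ∈ R k, ¬ (lt (q i) d .star ↔ lt (q j) d .star)) ∧
      φ.Realize fun i => s (q i)}
  have hm : Monotone Φ := fun k k' h q hq => ⟨hq.1, fun i j e => by
    obtain ⟨d, h1, h2⟩ := hq.2.1 i j e
    exact ⟨d, ⟨h1.1, h1.2.imp_left fun u => u.trans h⟩, h2⟩, hq.2.2⟩
  refine le_trans (measure_mono_ae (t := ⋃ k, Φ k) ?_) ?_
  · filter_upwards [ae_sep h0, ae_all_iff.2 fun i => (Measure.tendsto_eval_ae_ae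
      (μ := fun _ : Fin p => (ν : Measure Ω)) (i := i)).eventually hn] with q h1 h2 h3
    have : Nonempty T := ⟨.star⟩
    choose! d d1 d2 using h1
    obtain ⟨k, hk⟩ := (Set.finite_range fun w : Fin p × Fin p => enc (d w.1 w.2)).bddAbove
    exact Set.mem_iUnion.2 ⟨k, h2, fun i j e =>
      ⟨d i j, ⟨d1 i j e, Or.inl (hk ⟨(i, j), rfl⟩)⟩, d2 i j e⟩, h3⟩
  rw [hm.measure_iUnion]
  refine iSup_le fun k => ENNReal.le_of_forall_pos_le_add fun ε hε _ => ?_
  let B : Set (Fin p → Ω) := ⋃ q ∈ Φ k, ⋂ i, {v | Agree (insert .star (R k)) (qd φ) (q i) (v i)}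
  have hB : IsOpen B := isOpen_biUnion fun q _ => isOpen_iInter_of_finite fun i =>
    (isOpen_agree ((hRf k).insert _) _ (q i)).preimage (continuous_apply i)
  have hpi : Tendsto (fun n => ProbabilityMeasure.pi fun _ : Fin p => unif (A n) (g n)) U
      (𝓝 (ProbabilityMeasure.pi fun _ : Fin p => ν)) :=
    (ProbabilityMeasure.continuous_pi.tendsto _).comp (tendsto_pi_nhds.2 fun _ => hν)
  have hΦB : Φ k ⊆ B := fun q hq => Set.mem_biUnion hq (Set.mem_iInter.2 fun i => Agree.refl _ _ _)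
  refine (measure_mono hΦB).trans (open_le hpi hB ?_)
  filter_upwards [hℓ.eventually (ge_mem_nhds (lt_add_of_pos_right ℓ (NNReal.coe_pos.2 hε))),
    hδU'.eventually (agree_nhds (hRf k) (qd φ) δ)] with n h2 h3
  rw [ProbabilityMeasure.toMeasure_pi, unif_pi_apply _ _ hB.measurableSet,
    ← ENNReal.ofReal_coe_nnreal, ← ENNReal.ofReal_add hl0 ε.coe_nonneg]
  refine ENNReal.ofReal_le_ofReal (le_trans ?_ h2)
  unfold pair
  gcongr
  refine Nat.card_le_card_of_injective (fun v => ⟨v.1, ?_⟩) fun v w e =>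
    Subtype.ext (Subtype.mk.inj e)
  obtain ⟨q, hq, hv⟩ := Set.mem_iUnion₂.1 v.2
  have G := good_word (hδ := hδ) (fun d hd => hd.1) hq.1 hq.2.1 h3 fun i => Set.mem_iInter.1 hv i
  refine (ef hL (hP n) (presM hL _ _) v.1 (fun i => s (q i)) φ _ G ?_ ?_
    (Or.inl ⟨⟨.bot, trivial⟩, ⟨trivial, Or.inr (Or.inl rfl)⟩, rfl, rfl⟩)
    (Or.inl ⟨⟨.top, trivial⟩, ⟨trivial, Or.inr (Or.inr rfl)⟩, rfl, rfl⟩)
    (fun i => Or.inr ⟨i, rfl, by simp only [s, dif_pos (hq.1 i)]; rfl⟩) default default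
    (fun i => i.elim0)).2 hq.2.2
  · refine (((hRf k).image (ev (N n) (f n) 0)).union
      (Set.finite_range fun i => ι n (v.1 i))).subset ?_
    rintro _ ⟨_, ⟨d, hd, rfl, -⟩ | ⟨i, rfl, -⟩⟩
    exacts [Or.inl ⟨d, hd, rfl⟩, Or.inr ⟨i, rfl⟩]
  · refine ((((hRf k).preimage Subtype.val_injective.injOn).image (rep hδ)).union
      (Set.finite_range fun i => sp hδ (hq.1 i))).subset ?_
    rintro _ ⟨_, ⟨d, hd, -, rfl⟩ | ⟨i, -, rfl⟩⟩
    exacts [Or.inl ⟨d, hd, rfl⟩, Or.inr ⟨i, rfl⟩]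

theorem exists_pres (A : Type) [Finite A] [L.Structure A]
    (h1 : ∀ x : A, ¬ Structure.RelMap l ![x, x])
    (h2 : ∀ x y z : A, Structure.RelMap l ![x, y] → Structure.RelMap l ![y, z] →
      Structure.RelMap l ![x, z])
    (h3 : ∀ x y : A, x ≠ y → Structure.RelMap l ![x, y] ∨ Structure.RelMap l ![y, x]) :
    ∃ (f : ℕ → Bool) (ι : A → ℕ), Pres l c A (wordTO f) ι 0 (Nat.card A + 1) ∧
      ∀ i, Nat.card A < i → f i = false := by
  classical
  have : IsStrictTotalOrder A (fun x y => Structure.RelMap l ![x, y]) :=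
    { trichotomous := fun x y h h' => by_contra fun k => (h3 x y k).elim h h'
      irrefl := h1
      trans := h2 }
  let : LinearOrder A := linearOrderOfSTO (fun x y => Structure.RelMap l ![x, y])
  have := Fintype.ofFinite A
  let e := monoEquivOfFin A Nat.card_eq_fintype_card.symm
  have inj : Function.Injective fun a => (e.symm a).1 + 1 := fun a b h =>
    e.symm.injective (Fin.ext (Nat.succ_injective h))
  refine ⟨fun i => decide (∃ a, (e.symm a).1 + 1 = i ∧ Structure.RelMap c ![a]),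
    fun a => (e.symm a).1 + 1, ⟨inj, fun a => ⟨Nat.succ_pos _, Nat.succ_lt_succ (e.symm a).2⟩,
      fun z h h' => ⟨e ⟨z - 1, by omega⟩, by simp; omega⟩, fun a a' => ?_, fun a => ?_⟩,
    fun i hi => ?_⟩
  · rw [Nat.succ_lt_succ_iff, ← Fin.lt_def, e.symm.lt_iff_lt]; rfl
  · simp only [wordTO, decide_eq_true_eq]
    exact ⟨fun h => ⟨a, rfl, h⟩, fun ⟨b, h, h'⟩ => inj h ▸ h'⟩
  · simp only [decide_eq_false_iff_not]
    rintro ⟨a, h, -⟩
    have := (e.symm a).2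
    omega

theorem pair_congr (hL : Lang L l c) {A B : Type} [L.Structure A] [L.Structure B] {f : ℕ → Bool}
    {ι : A → ℕ} {κ : B → ℕ} {N : ℕ} (hA : Pres l c A (wordTO f) ι 0 N)
    (hB : Pres l c B (wordTO f) κ 0 N) {p : ℕ} (φ : L.Formula (Fin p)) :
    pair A φ = pair B φ := by
  choose β hβ using fun a => hB.surj (ι a) (hA.mem a).1 (hA.mem a).2
  have hb : Function.Bijective β :=
    ⟨fun a a' h => hA.inj (by rw [← hβ, h, hβ]), fun b => by
      obtain ⟨a, ha⟩ := hA.surj (κ b) (hB.mem b).1 (hB.mem b).2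
      exact ⟨a, hB.inj (by rw [hβ, ha])⟩⟩
  let e := Equiv.ofBijective β hb
  unfold pair
  rw [Nat.card_congr e, Nat.card_congr ((Equiv.arrowCongr (Equiv.refl (Fin p)) e).subtypeEquiv
    (q := fun v => φ.Realize v) fun v => ?_)]
  refine ef hL hA hB v _ φ (fun x y => x ≤ N ∧ x = y) ⟨?_, ?_, ?_⟩
    ((Set.finite_Iic N).subset fun x hx => hx.choose_spec.1)
    ((Set.finite_Iic N).subset fun x ⟨y, h, h'⟩ => h' ▸ h) ⟨Nat.zero_le _, rfl⟩ ⟨le_rfl, rfl⟩
    (fun i => ⟨(hA.mem _).2.le, (hβ _).symm⟩) default default fun i => i.elim0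
  · rintro _ _ _ _ ⟨-, rfl⟩ ⟨-, rfl⟩; rfl
  · rintro _ _ ⟨-, rfl⟩; rfl
  · rintro _ _ _ _ ⟨-, rfl⟩ ⟨-, rfl⟩ -; rfl

theorem bounded (hL : Lang L l c) (A : ℕ → Type) [∀ n, Finite (A n)] [∀ n, Nonempty (A n)]
    [∀ n, L.Structure (A n)] (f : ℕ → ℕ → Bool) (ι : ∀ n, A n → ℕ)
    (hP : ∀ n, Pres l c (A n) (wordTO (f n)) (ι n) 0 (Nat.card (A n) + 1))
    (hf : ∀ n i, Nat.card (A n) < i → f n i = false) (U : Ultrafilter ℕ)
    (hU : ¬ Tendsto (fun n => Nat.card (A n)) U atTop) :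
    ∃ (M : Type) (_ : MeasurableSpace M) (_ : StandardBorelSpace M) (_ : L.Structure M)
      (μ : Measure M) (_ : IsProbabilityMeasure μ),
      (∀ (p : ℕ) (φ : L.Formula (Fin p)), MeasurableSet {v : Fin p → M | φ.Realize v}) ∧
      ∀ (p : ℕ) (φ : L.Formula (Fin p)) (ℓ : ℝ), Tendsto (fun n => pair (A n) φ) U (𝓝 ℓ) →
        (Measure.pi (fun _ : Fin p => μ) {v : Fin p → M | φ.Realize v}).toReal ≤ ℓ := by
  rw [tendsto_atTop] at hU
  push Not at hU
  obtain ⟨b, hb⟩ := hU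
  have hb' : ∀ᶠ n in U, Nat.card (A n) < b := hb
  obtain ⟨w, -, hw⟩ := (U.map fun n => (Nat.card (A n), fun i : Fin b => f n i)).eq_pure_of_finite_mem
    (s := Set.Iio b ×ˢ Set.univ) ((Set.finite_Iio b).prod Set.finite_univ)
    (Ultrafilter.mem_map.2 (hb'.mono fun n hn => ⟨hn, trivial⟩))
  have hw' : ∀ᶠ n in U, (Nat.card (A n), fun i : Fin b => f n i) = w := by
    have : {w} ∈ U.map fun n => (Nat.card (A n), fun i : Fin b => f n i) := by rw [hw]; simp
    exact Ultrafilter.mem_map.1 this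
  obtain ⟨m, hm, hm'⟩ := (hb'.and hw').exists
  let : MeasurableSpace (A m) := ⊤
  have : DiscreteMeasurableSpace (A m) := ⟨fun _ => trivial⟩
  refine ⟨A m, inferInstance, inferInstance, inferInstance, uniformOn Set.univ, inferInstance,
    fun _ _ => MeasurableSet.of_discrete, fun p φ ℓ hℓ => ?_⟩
  rw [unif_pi, ENNReal.toReal_ofReal (by positivity)]
  refine ge_of_tendsto hℓ ?_
  filter_upwards [hb', hw'] with n hn hn'
  have e := hn'.trans hm'.symm
  have e1 : Nat.card (A n) = Nat.card (A m) := congrArg Prod.fst e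
  have e2 : f n = f m := by
    funext i
    by_cases k : i < b
    · exact congrFun (congrArg Prod.snd e) ⟨i, k⟩
    · rw [hf n i (by omega), hf m i (by omega)]
  have := hP n
  rw [e1, e2] at this
  exact (pair_congr hL (hP m) this φ).le

theorem main (hL : Lang L l c) (A : ℕ → Type) [∀ n, Finite (A n)] [∀ n, Nonempty (A n)]
    [∀ n, L.Structure (A n)] (h1 : ∀ n (x : A n), ¬ Structure.RelMap l ![x, x])
    (h2 : ∀ n (x y z : A n), Structure.RelMap l ![x, y] → Structure.RelMap l ![y, z] →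
      Structure.RelMap l ![x, z])
    (h3 : ∀ n (x y : A n), x ≠ y → Structure.RelMap l ![x, y] ∨ Structure.RelMap l ![y, x])
    (h : ∀ (p : ℕ) (φ : L.Formula (Fin p)), ∃ ℓ : ℝ,
      Tendsto (fun n => pair (A n) φ) atTop (𝓝 ℓ)) :
    ∃ (M : Type) (_ : MeasurableSpace M) (_ : StandardBorelSpace M) (_ : L.Structure M)
      (μ : Measure M) (_ : IsProbabilityMeasure μ),
      (∀ (p : ℕ) (φ : L.Formula (Fin p)), MeasurableSet {v : Fin p → M | φ.Realize v}) ∧
      ∀ (p : ℕ) (φ : L.Formula (Fin p)), Tendsto (fun n => pair (A n) φ) atTop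
        (𝓝 (Measure.pi (fun _ : Fin p => μ) {v : Fin p → M | φ.Realize v}).toReal) := by
  choose f ι hP hf using fun n => exists_pres (c := c) (A n) (h1 n) (h2 n) (h3 n)
  obtain ⟨M, i1, i2, i3, μ, i4, H1, H2⟩ : ∃ (M : Type) (_ : MeasurableSpace M)
      (_ : StandardBorelSpace M) (_ : L.Structure M) (μ : Measure M) (_ : IsProbabilityMeasure μ),
      (∀ (p : ℕ) (φ : L.Formula (Fin p)), MeasurableSet {v : Fin p → M | φ.Realize v}) ∧
      ∀ (p : ℕ) (φ : L.Formula (Fin p)) (ℓ : ℝ),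
        Tendsto (fun n => pair (A n) φ) (hyperfilter ℕ) (𝓝 ℓ) →
        (Measure.pi (fun _ : Fin p => μ) {v : Fin p → M | φ.Realize v}).toReal ≤ ℓ := by
    by_cases hU : Tendsto (fun n => Nat.card (A n)) (hyperfilter ℕ) atTop
    exacts [unbounded hL A f ι hP _ hU, bounded hL A f ι hP hf _ hU]
  refine ⟨M, i1, i2, i3, μ, i4, H1, fun p φ => ?_⟩
  obtain ⟨ℓ, hℓ⟩ := h p φ
  have a1 := H2 p φ ℓ (hℓ.mono_left Nat.hyperfilter_le_atTop)
  have a2 := H2 p φ.not (1 - ℓ) (by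
    simp only [pair_not]
    exact (hℓ.mono_left Nat.hyperfilter_le_atTop).const_sub 1)
  have e : {v : Fin p → M | φ.not.Realize v} = {v : Fin p → M | φ.Realize v}ᶜ := by
    ext; simp
  rw [e] at a2
  have a3 := probReal_compl_eq_one_sub (μ := Measure.pi (fun _ : Fin p => μ)) (H1 p φ)
  simp only [Measure.real] at a3
  rwa [show (Measure.pi (fun _ : Fin p => μ) {v : Fin p → M | φ.Realize v}).toReal = ℓ by
    linarith]

end Pool.Agent.H270Z.Ord
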